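import Mathlib

/-!
A module all of whose simple sections have a large image algebra has few homomorphisms.
-/

namespace Pool.Agent.P.MP_f1a348_lc.KT

open Module

variable {k R V Z : Type} [Field k] [Ring R] [Algebra k R] [AddCommGroup V] [Module k V]
  [AddCommGroup Z] [Module k Z]

theorem rk [Module.Finite k Z] (f : Z →ₗ[k] V) (U : Submodule k Z) :
    finrank k (U.map f) + finrank k (U ⊓ LinearMap.ker f : Submodule k Z) = finrank k U := by
  rw [← LinearMap.finrank_range_add_finrank_ker (f.domRestrict U), LinearMap.range_domRestrict,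
    ← (Submodule.comapSubtypeEquivOfLe (inf_le_left (b := LinearMap.ker f))).finrank_eq]
  have e : Submodule.comap U.subtype (U ⊓ LinearMap.ker f) = LinearMap.ker (f.domRestrict U) := by
    ext w
    exact ⟨fun hw => hw.2, fun hw => ⟨w.2, hw⟩⟩
  rw [e]

/-- the elements of `H` that kill `W` -/
def Kl {T : Type} [AddCommGroup T] [Module k T] (φ : Z →ₗ[k] V →ₗ[k] T) (H : Submodule k Z) (W : Submodule k V) : Submodule k Z :=
  H ⊓ ⨅ u ∈ W, LinearMap.ker (φ.flip u)

theorem mem_Kl {T : Type} [AddCommGroup T] [Module k T] {φ : Z →ₗ[k] V →ₗ[k] T} {H : Submodule k Z} {W : Submodule k V} {w : Z} :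
    w ∈ Kl φ H W ↔ w ∈ H ∧ ∀ u ∈ W, φ w u = 0 := by
  simp [Kl, Submodule.mem_iInf]

/-- invariant subspaces -/
def Iv (act : R →ₗ[k] V →ₗ[k] V) (A : Submodule k R) (U : Submodule k V) : Prop :=
  ∀ a ∈ A, ∀ u ∈ U, act a u ∈ U

theorem exists_simple [Module.Finite k V] (Q : Submodule k V → Prop) {L P : Submodule k V}
    (hP : Q P) (h : L < P) : ∃ U, Q U ∧ L < U ∧ U ≤ P ∧
      ∀ W, Q W → L ≤ W → W ≤ U → W = L ∨ W = U := by
  obtain ⟨U, ⟨h1, h2, h3⟩, hm⟩ := exists_minimalFor_of_wellFoundedLT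
    (fun U : Submodule k V => Q U ∧ L < U ∧ U ≤ P) (fun U => finrank k U) ⟨P, hP, h, le_rfl⟩
  refine ⟨U, h1, h2, h3, fun W a b c => ?_⟩
  rcases b.eq_or_lt with e | e
  · exact Or.inl e.symm
  · exact Or.inr (Submodule.eq_of_le_of_finrank_le c
      (hm ⟨a, e, c.trans h3⟩ (Submodule.finrank_mono c)))

theorem homb_step [Module.Finite k R] [Module.Finite k V] [Module.Finite k Z]
    (act : R →ₗ[k] V →ₗ[k] V) (hmul : ∀ a b v, act (a * b) v = act a (act b v))
    (A : Submodule k R) (hA : ∀ a ∈ A, ∀ b ∈ A, a * b ∈ A) (L U : Submodule k V)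
    (hL : Iv act A L) (hU : Iv act A U) (hLU : L ≤ U)
    (hs : ∀ W, Iv act A W → L ≤ W → W ≤ U → W = L ∨ W = U) (γ : ℕ)
    (hγ : ∀ I ≤ A, (∀ x ∈ I, ∀ u ∈ U, act x u ∈ L) → γ + finrank k I ≤ finrank k A)
    (φ : Z →ₗ[k] V →ₗ[k] V) (H : Submodule k Z)
    (hH : ∀ w ∈ H, ∀ a ∈ A, ∀ u ∈ U, φ w (act a u) = act a (φ w u)) :
    γ * finrank k (Kl φ H L) + finrank k L * finrank k V ≤
      γ * finrank k (Kl φ H U) + finrank k U * finrank k V := by
  obtain ⟨h, e1⟩ := Nat.exists_eq_add_of_le (Submodule.finrank_mono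
    (fun w hw => mem_Kl.2 ⟨(mem_Kl.1 hw).1, fun u hu => (mem_Kl.1 hw).2 u (hLU hu)⟩ :
      Kl φ H U ≤ Kl φ H L))
  obtain ⟨d, e2⟩ := Nat.exists_eq_add_of_le (Submodule.finrank_mono hLU)
  have key : ∀ (N : ℕ) (I : Submodule k R) (c : ℕ), finrank k I = N → I ≤ A →
      (∀ a ∈ A, ∀ x ∈ I, a * x ∈ I) → finrank k A ≤ finrank k I + c →
      c * h ≤ d * finrank k (Kl act.flip ⊤ I) → γ * h ≤ d * finrank k V := by
    intro N
    induction N using Nat.strong_induction_on with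
    | _ N ih =>
    intro I c hN hI hl hc hd
    by_cases hx : ∀ x ∈ I, ∀ u ∈ U, act x u ∈ L
    · have := hγ I hI hx
      exact (Nat.mul_le_mul_right h (by omega)).trans
        (hd.trans (Nat.mul_le_mul_left d (Submodule.finrank_le _)))
    push Not at hx
    obtain ⟨x0, hx0, s, hsU, hn⟩ := hx
    have eW : L ⊔ I.map (act.flip s) = U := by
      refine (hs _ (fun a ha u hu => ?_) le_sup_left (sup_le hLU ?_)).resolve_left fun e => hn ?_
      · obtain ⟨l, hl', _, ⟨x, hx, rfl⟩, rfl⟩ := Submodule.mem_sup.1 hu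
        rw [map_add]
        exact Submodule.add_mem_sup (hL a ha l hl') ⟨a * x, hl a ha x hx, hmul a x s⟩
      · rintro _ ⟨x, hx, rfl⟩
        exact hU x (hI hx) s hsU
      · rw [← e]
        exact Submodule.mem_sup_right ⟨x0, hx0, rfl⟩
    have kill : ∀ w ∈ Kl φ H L, φ w s ∈ Kl act.flip ⊤ I → w ∈ Kl φ H U := fun w hw hk => by
      refine mem_Kl.2 ⟨(mem_Kl.1 hw).1, fun u hu => ?_⟩
      rw [← eW] at hu
      obtain ⟨l, hl', _, ⟨x, hx, rfl⟩, rfl⟩ := Submodule.mem_sup.1 hu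
      rw [map_add, (mem_Kl.1 hw).2 l hl', zero_add]
      exact (hH w (mem_Kl.1 hw).1 x (hI hx) s hsU).trans ((mem_Kl.1 hk).2 x hx)
    have r1 := rk (L.mkQ ∘ₗ act.flip s) I
    have r2 := rk L.mkQ U
    rw [Submodule.ker_mkQ, inf_eq_right.2 hLU] at r2
    have r3 : finrank k (I.map (L.mkQ ∘ₗ act.flip s)) ≤ finrank k (U.map L.mkQ) :=
      Submodule.finrank_mono (by
        rintro _ ⟨x, hx, rfl⟩
        exact ⟨_, hU x (hI hx) s hsU, rfl⟩)
    set I' := I ⊓ LinearMap.ker (L.mkQ ∘ₗ act.flip s) with hI'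
    have m' : ∀ x, x ∈ I' ↔ x ∈ I ∧ act x s ∈ L := fun x => by
      simp [hI']
    have r4 := rk (φ.flip s) (Kl φ H L)
    have r5 : finrank k (Kl φ H L ⊓ LinearMap.ker (φ.flip s) : Submodule k Z) ≤
        finrank k (Kl φ H U) := Submodule.finrank_mono fun w hw => kill w hw.1 (by
      rw [show φ w s = 0 from hw.2]; exact zero_mem _)
    have r6 := Submodule.finrank_sup_add_finrank_inf_eq (Kl act.flip ⊤ I)
      ((Kl φ H L).map (φ.flip s))
    have r7 : Kl act.flip ⊤ I ⊓ (Kl φ H L).map (φ.flip s) = ⊥ := by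
      rw [eq_bot_iff]
      rintro _ ⟨hk, w, hw, rfl⟩
      exact (mem_Kl.1 (kill w hw hk)).2 s hsU
    have r8 : finrank k (Kl act.flip ⊤ I ⊔ (Kl φ H L).map (φ.flip s) : Submodule k V) ≤
        finrank k (Kl act.flip ⊤ I') := by
      refine Submodule.finrank_mono (sup_le (fun v hv => mem_Kl.2 ⟨trivial, fun x hx =>
        (mem_Kl.1 hv).2 x hx.1⟩) ?_)
      rintro _ ⟨w, hw, rfl⟩
      refine mem_Kl.2 ⟨trivial, fun x hx => ?_⟩
      exact (hH w (mem_Kl.1 hw).1 x (hI hx.1) s hsU).symm.trans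
        ((mem_Kl.1 hw).2 _ ((m' x).1 hx).2)
    rw [r7, finrank_bot] at r6
    refine ih _ ?_ I' (c + d) rfl (inf_le_left.trans hI) (fun a ha x hx => (m' _).2
      ⟨hl a ha x hx.1, by rw [hmul]; exact hL a ha _ ((m' x).1 hx).2⟩) (by omega) ?_
    · rw [← hN]
      exact Submodule.finrank_lt_finrank_of_lt
        (lt_of_le_of_ne inf_le_left fun e => hn ((m' x0).1 (e ▸ hx0)).2)
    · rw [add_mul]
      refine (Nat.add_le_add_right hd _).trans ?_
      rw [← mul_add]
      exact Nat.mul_le_mul_left d (by omega)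
  have := key _ A 0 rfl le_rfl hA le_rfl (by simp)
  rw [e1, e2, mul_add, add_mul]
  omega

theorem homb [Module.Finite k R] [Module.Finite k V] [Module.Finite k Z]
    (act : R →ₗ[k] V →ₗ[k] V) (hmul : ∀ a b v, act (a * b) v = act a (act b v))
    (A : Submodule k R) (hA : ∀ a ∈ A, ∀ b ∈ A, a * b ∈ A) (P : Submodule k V)
    (hP : Iv act A P) (γ : ℕ)
    (hγ : ∀ L U, Iv act A L → Iv act A U → L < U → U ≤ P →
      (∀ W, Iv act A W → L ≤ W → W ≤ U → W = L ∨ W = U) →
      ∀ I ≤ A, (∀ x ∈ I, ∀ u ∈ U, act x u ∈ L) → γ + finrank k I ≤ finrank k A)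
    (φ : Z →ₗ[k] V →ₗ[k] V) (H : Submodule k Z)
    (hH : ∀ w ∈ H, ∀ a ∈ A, ∀ u ∈ P, φ w (act a u) = act a (φ w u)) :
    γ * finrank k H ≤ γ * finrank k (Kl φ H P) + finrank k P * finrank k V := by
  have key : ∀ (N : ℕ) (L : Submodule k V), finrank k P ≤ finrank k L + N → Iv act A L → L ≤ P →
      γ * finrank k (Kl φ H L) + finrank k L * finrank k V ≤
        γ * finrank k (Kl φ H P) + finrank k P * finrank k V := by
    intro N
    induction N with
    | zero =>
      intro L h _ h2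
      rw [Submodule.eq_of_le_of_finrank_le h2 h]
    | succ N ih =>
      intro L h h1 h2
      rcases h2.eq_or_lt with rfl | h3
      · exact le_rfl
      obtain ⟨U, u1, u2, u3, u4⟩ := exists_simple (Iv act A) hP h3
      have := Submodule.finrank_lt_finrank_of_lt u2
      exact (homb_step act hmul A hA L U h1 u1 u2.le u4 γ (hγ L U h1 u1 u2 u3 u4) φ H
        fun w hw a ha u hu => hH w hw a ha u (u3 hu)).trans (ih U (by omega) u1 u3)
  have := key (finrank k P) ⊥ (by omega) (fun a _ u hu => by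
    rw [(Submodule.mem_bot k).1 hu, map_zero]; exact zero_mem _) bot_le
  have e : Kl φ H ⊥ = H := le_antisymm inf_le_left fun w hw => mem_Kl.2 ⟨hw, fun u hu => by
    rw [(Submodule.mem_bot k).1 hu, map_zero]⟩
  rw [e] at this
  omega

end Pool.Agent.P.MP_f1a348_lc.KT
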