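import Pool.Agent.P.MP_f1a348_lc.KT.Cov
import Pool.Agent.P.MP_f1a348_lc.KT.Hom

/-!
Forms that are invariant modulo traces: involutions and perfect groups.
-/

namespace Pool.Agent.P.MP_f1a348_lc.KT

open Module Finset

variable {k X Y : Type} [Field k] [AddCommGroup X] [Module k X] [AddCommGroup Y] [Module k Y]

theorem inv_form (ev : Y →ₗ[k] X →ₗ[k] X →ₗ[k] k) (θ : (Fin 3 → X) → k)
    (M U : Fin 3 → Submodule k X) (E : Fin 3 → Submodule k Y) {G : Type} [Mul G] (Z : Set G)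
    (ρ : G → X → X) (hρ : ∀ a b x, ρ (a * b) x = ρ a (ρ b x))
    (hP : ∀ ψ : G → k, (∀ a ∈ Z, ∀ b ∈ Z, ψ (a * b) = ψ a + ψ b) → ∀ a ∈ Z, ψ a = 0)
    (hU : ∀ j, U j ≤ M j) (hZ : ∀ z ∈ Z, ∀ j, ∀ x ∈ U j, ρ z x ∈ U j) (m : Fin 3)
    (hm : ∀ z ∈ Z, ∀ x ∈ U m, ρ z x = x)
    (hE : ∀ z ∈ Z, ∀ C ∈ E m, ∀ x y, ev C (ρ z x) (ρ z y) = ev C x y)
    (h0 : ∀ j ≠ m, ∀ C ∈ E j, ∀ x ∈ U (j + 1), ∀ y ∈ U (j + 2), ev C x y = 0)
    (hθ : ∀ z ∈ Z, Trc ev E M fun x => θ (fun j => ρ z (x j)) - θ x) :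
    ∀ z ∈ Z, ∀ x, (∀ j, x j ∈ U j) → θ (fun j => ρ z (x j)) = θ x := by
  intro z hz x hx
  refine sub_eq_zero.1 (hP (fun z => θ (fun j => ρ z (x j)) - θ x) (fun a ha b hb => ?_) z hz)
  obtain ⟨κ, hκ, e⟩ := hθ a ha
  have key : ∀ y : Fin 3 → X, (∀ j, y j ∈ U j) →
      θ (fun j => ρ a (y j)) - θ y = ev (κ m (y m)) (y (m + 1)) (y (m + 2)) := fun y hy =>
    (e y fun j => hU j (hy j)).trans
      (sum_eq_single m (fun j _ hj => h0 j hj _ (hκ j _) _ (hy _) _ (hy _)) (by simp))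
  have e1 := key (fun j => ρ b (x j)) fun j => hZ b hb j _ (hx j)
  simp only [hm b hb _ (hx m), hE b hb _ (hκ m _)] at e1
  simp only [hρ]
  rw [key x hx, ← e1]
  ring

/-- the vectors of `W` fixed by `τ` -/
def Ep (τ : X →ₗ[k] X) (W : Submodule k X) : Submodule k X := W ⊓ LinearMap.ker (τ - 1)

/-- the vectors of `W` negated by `τ` -/
def Em (τ : X →ₗ[k] X) (W : Submodule k X) : Submodule k X := W ⊓ LinearMap.ker (τ + 1)

theorem mem_Ep {τ : X →ₗ[k] X} {W : Submodule k X} {x : X} : x ∈ Ep τ W ↔ x ∈ W ∧ τ x = x := by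
  simp [Ep, sub_eq_zero]

theorem mem_Em {τ : X →ₗ[k] X} {W : Submodule k X} {x : X} : x ∈ Em τ W ↔ x ∈ W ∧ τ x = -x := by
  simp [Em, add_eq_zero_iff_eq_neg]

theorem half (h2 : (2 : k) ≠ 0) {x : X} (h : x = -x) : x = 0 :=
  (smul_eq_zero.1 (by rw [two_smul]; exact add_eq_zero_iff_eq_neg.2 h)).resolve_left h2

theorem sign_rk [Module.Finite k X] [Module.Finite k Y] (h2 : (2 : k) ≠ 0) (τ : X →ₗ[k] X)
    (hτ : ∀ x, τ (τ x) = x) (W K : Submodule k X) (hW : ∀ x ∈ W, τ x ∈ W) (hK : K ≤ Ep τ W)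
    (E : Submodule k Y) (κ : X →ₗ[k] Y) (hκ : ∀ x, κ x ∈ E) :
    finrank k W + finrank k K ≤ finrank k (K ⊔ Em τ W ⊓ LinearMap.ker κ : Submodule k X) +
      finrank k (Ep τ W) + finrank k E := by
  have a1 := rk (τ - 1) W
  have a2 : finrank k (W.map (τ - 1)) ≤ finrank k (Em τ W) := Submodule.finrank_mono (by
    rintro _ ⟨x, hx, rfl⟩
    exact mem_Em.2 ⟨W.sub_mem (hW x hx) hx, by simp [hτ]⟩)
  have a3 := inf_ker (Em τ W) E κ hκ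
  have a4 := Submodule.finrank_sup_add_finrank_inf_eq K (Em τ W ⊓ LinearMap.ker κ)
  have a5 : K ⊓ (Em τ W ⊓ LinearMap.ker κ) = ⊥ := eq_bot_iff.2 fun x hx =>
    half h2 ((mem_Ep.1 (hK hx.1)).2.symm.trans (mem_Em.1 hx.2.1).2)
  rw [a5, finrank_bot] at a4
  change _ + finrank k (Ep τ W) = _ at a1
  omega

theorem sign_dm [Module.Finite k X] [Module.Finite k Y] (h2 : (2 : k) ≠ 0)
    (ev : Y →ₗ[k] X →ₗ[k] X →ₗ[k] k) (θ : MultilinearMap k (fun _ : Fin 3 => X) k)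
    (M : Fin 3 → Submodule k X) (E : Fin 3 → Submodule k Y) (τ : X →ₗ[k] X)
    (hτ : ∀ x, τ (τ x) = x) (hM : ∀ j, ∀ x ∈ M j, τ x ∈ M j)
    (hE : ∀ j, ∀ C ∈ E j, ∀ x y, ev C (τ x) (τ y) = ev C x y)
    (hθ : Trc ev E M fun x => θ (fun j => τ (x j)) - θ x) (K1 K2 : Submodule k X)
    (k1 : K1 ≤ Ep τ (M 1)) (k2 : K2 ≤ Ep τ (M 2))
    (z1 : ∀ x ∈ Em τ (M 0), ∀ y ∈ K1, ∀ z ∈ Em τ (M 2), θ ![x, y, z] = 0)
    (z2 : ∀ x ∈ Em τ (M 0), ∀ y ∈ Em τ (M 1), ∀ z ∈ K2, θ ![x, y, z] = 0) :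
    ∃ U1 U2, K1 ≤ U1 ∧ K2 ≤ U2 ∧ U1 ≤ M 1 ∧ U2 ≤ M 2 ∧
      finrank k (M 1) + finrank k K1 ≤ finrank k U1 + finrank k (Ep τ (M 1)) + finrank k (E 1) ∧
      finrank k (M 2) + finrank k K2 ≤ finrank k U2 + finrank k (Ep τ (M 2)) + finrank k (E 2) ∧
      Em τ (M 0) ≤ Dm ev θ (E 0) U1 U2 := by
  obtain ⟨κ, hκ, e⟩ := hθ
  refine ⟨K1 ⊔ Em τ (M 1) ⊓ LinearMap.ker (κ 1), K2 ⊔ Em τ (M 2) ⊓ LinearMap.ker (κ 2),
    le_sup_left, le_sup_left, sup_le (k1.trans inf_le_left) (inf_le_left.trans inf_le_left),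
    sup_le (k2.trans inf_le_left) (inf_le_left.trans inf_le_left),
    sign_rk h2 τ hτ _ _ (hM 1) k1 _ _ (hκ 1), sign_rk h2 τ hτ _ _ (hM 2) k2 _ _ (hκ 2),
    fun x hx => ⟨(-2⁻¹ : k) • κ 0 x, (E 0).smul_mem _ (hκ 0 x), fun y hy z hz => ?_⟩⟩
  obtain ⟨y1, hy1, y2, hy2, rfl⟩ := Submodule.mem_sup.1 hy
  obtain ⟨w1, hw1, w2, hw2, rfl⟩ := Submodule.mem_sup.1 hz
  have pm : ∀ j, ∀ C ∈ E j, ∀ u v, τ u = u → τ v = -v → ev C u v = 0 := fun j C hC u v a b =>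
    half h2 (by rw [← map_neg, ← b, ← hE j C hC u v, a])
  have mp : ∀ j, ∀ C ∈ E j, ∀ u v, τ u = -u → τ v = v → ev C u v = 0 := fun j C hC u v a b =>
    half h2 (by rw [← LinearMap.neg_apply, ← map_neg, ← a, ← hE j C hC u v, b])
  have ad1 : ∀ u v w, θ ![x, u + v, w] = θ ![x, u, w] + θ ![x, v, w] := fun u v w =>
    (θ.curryLeft x).cons_add ![w] u v
  have ad2 : ∀ u v w, θ ![x, u, v + w] = θ ![x, u, v] + θ ![x, u, w] := fun u v w =>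
    ((θ.curryLeft x).curryLeft u).cons_add ![] v w
  have sg : ∀ u v (c : k), c * c = 1 → u ∈ M 1 → v ∈ M 2 → τ u = c • u → τ v = c • v →
      -2 * θ ![x, u, v] = ev (κ 0 x) u v + ev (κ 1 u) v x + ev (κ 2 v) x u := by
    intro u v c hc hu hv a b
    have e1 := e ![x, u, v] fun j => by
      fin_cases j
      exacts [(mem_Em.1 hx).1, hu, hv]
    have e2 : (fun j => τ (![x, u, v] j)) = fun j => ![-1, c, c] j • ![x, u, v] j := by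
      funext j
      fin_cases j
      · simpa using (mem_Em.1 hx).2
      · exact a
      · exact b
    beta_reduce at e1
    rw [e2, θ.map_smul_univ, Fin.prod_univ_three, Fin.sum_univ_three] at e1
    refine Eq.trans ?_ e1
    simp only [Matrix.cons_val_zero, Matrix.cons_val_one, Matrix.cons_val, smul_eq_mul]
    rw [mul_assoc (-1 : k), hc]
    ring
  have x0 := (mem_Em.1 hx).2
  have p1 := mem_Ep.1 (k1 hy1)
  have p2 := mem_Ep.1 (k2 hw1)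
  have q1 := mem_Em.1 hy2.1
  have q2 := mem_Em.1 hw2.1
  have s1 := sg y1 w1 1 (one_mul 1) p1.1 p2.1 (by simpa using p1.2) (by simpa using p2.2)
  have s2 := sg y2 w2 (-1) (by ring) q1.1 q2.1 (by simpa using q1.2) (by simpa using q2.2)
  rw [pm 1 _ (hκ 1 _) _ _ p2.2 x0, mp 2 _ (hκ 2 _) _ _ x0 p1.2] at s1
  rw [show κ 1 y2 = 0 from hy2.2, show κ 2 w2 = 0 from hw2.2] at s2
  rw [ad1, ad2, ad2, z1 x hx y1 hy1 w2 hw2.1, z2 x hx y2 hy2.1 w1 hw1]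
  simp only [map_add, map_smul, map_zero, LinearMap.add_apply, LinearMap.smul_apply,
    LinearMap.zero_apply, smul_eq_mul, add_zero] at s1 s2 ⊢
  rw [pm 0 _ (hκ 0 _) _ _ p1.2 q2.2, mp 0 _ (hκ 0 _) _ _ q1.2 p2.2, ← s1, ← s2]
  field_simp
  ring

theorem direct [Module.Finite k X] [Module.Finite k Y] (ev : Y →ₗ[k] X →ₗ[k] X →ₗ[k] k)
    (θ : MultilinearMap k (fun _ : Fin 3 => X) k) (M : Fin 3 → Submodule k X)
    (E : Fin 3 → Submodule k Y) (Γ : Set (Fin 3 → X ≃ₗ[k] X)) (hΓ : ∀ g ∈ Γ, Pres ev E M θ g)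
    (hirr : ∀ W, W ≤ M 0 → (∀ g ∈ Γ, ∀ x ∈ W, g 0 x ∈ W) → W = ⊥ ∨ W = M 0)
    (e1 : E 1 = ⊥) (e2 : E 2 = ⊥) (h : M 0 ⊓ Dm ev θ (E 0) (M 1) (M 2) ≠ ⊥) : Trc ev E M θ := by
  have e := (hirr _ inf_le_left fun g hg x hx => by
    obtain ⟨W1, W2, a1, a2, b1, b2, c⟩ :=
      Dm_move ev θ M E g (hΓ g hg) _ _ _ inf_le_left le_rfl le_rfl inf_le_right
    rw [e1, finrank_bot] at b1
    rw [e2, finrank_bot] at b2
    rw [Submodule.eq_of_le_of_finrank_le a1 b1, Submodule.eq_of_le_of_finrank_le a2 b2] at c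
    exact ⟨(hΓ g hg).slot 0 x hx.1, c ⟨x, hx, rfl⟩⟩).resolve_left h
  have : M = ![M 0, M 1, M 2] := by funext j; fin_cases j <;> rfl
  rw [this]
  exact Dm_trc ev θ E _ _ _ (inf_eq_left.1 e)

theorem compress2 [Finite X] [Finite Y] (ev : Y →ₗ[k] X →ₗ[k] X →ₗ[k] k)
    (θ : MultilinearMap k (fun _ : Fin 3 => X) k) (M : Fin 3 → Submodule k X)
    (E : Fin 3 → Submodule k Y) (Γ : Set (Fin 3 → X ≃ₗ[k] X)) (hne : Γ.Nonempty)
    (hmul : ∀ g ∈ Γ, ∀ h ∈ Γ, g * h ∈ Γ) (hΓ : ∀ g ∈ Γ, Pres ev E M θ g)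
    (hirr : ∀ j W, W ≤ M j → (∀ g ∈ Γ, ∀ x ∈ W, g j x ∈ W) → W = ⊥ ∨ W = M j)
    (hbig : ∀ j, 40 * finrank k (E j) ≤ finrank k (M j))
    (A U1 U2 : Submodule k X) (hA : A ≤ M 0) (h1 : U1 ≤ M 1) (h2 : U2 ≤ M 2)
    (hD : A ≤ Dm ev θ (E 0) U1 U2) (ha : 0 < finrank k A)
    (m1 : finrank k (M 0) ≤ finrank k (M 1)) (m2 : finrank k (M 0) ≤ finrank k (M 2))
    (c1 : 32 * (finrank k (M 1) + finrank k (E 1)) ≤ 32 * finrank k U1 + finrank k A)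
    (c2 : 32 * (finrank k (M 2) + finrank k (E 2)) ≤ 32 * finrank k U2 + finrank k A) :
    Trc ev E M θ := by
  have : Module.Finite k X := Module.Finite.of_finite
  have al := Submodule.finrank_mono hA
  refine compress ev θ M E Γ hne hmul hΓ hirr (fun j => ?_) hbig A U1 U2 hA h1 h2 hD
    (3 * finrank k (M 0) / finrank k A + 1) ?_
  · fin_cases j
    exacts [ha.trans_le al, ha.trans_le (al.trans m1), ha.trans_le (al.trans m2)]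
  have n1 := Nat.lt_mul_div_succ (3 * finrank k (M 0)) ha
  have n2 := Nat.mul_div_le (3 * finrank k (M 0)) (finrank k A)
  generalize 3 * finrank k (M 0) / finrank k A = N at n1 n2
  generalize finrank k A = a at *
  generalize finrank k (M 0) = m at *
  have n3 : (N + 1) * a ≤ 4 * m := by nlinarith
  have tail : ∀ m' u e : ℕ, m ≤ m' → 32 * (m' + e) ≤ 32 * u + a →
      ((N + 1 : ℕ) : ℝ) * ((m' : ℝ) - u + e) / m' ≤ 1 / 8 := fun m' u e b1 b2 => by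
    rw [div_le_iff₀ (by exact_mod_cast ha.trans_le (al.trans b1))]
    rify at b1 b2 n3
    have := mul_le_mul_of_nonneg_left b2 (by positivity : (0 : ℝ) ≤ N + 1)
    push_cast
    linarith
  have t1 := tail _ _ _ m1 c1
  have t2 := tail _ _ _ m2 c2
  have mp : (0 : ℝ) < m := by exact_mod_cast ha.trans_le al
  have x0 : (0 : ℝ) ≤ a / m := by positivity
  have x1 : (a : ℝ) / m ≤ 1 := (div_le_one mp).2 (by exact_mod_cast al)
  have x2 : (3 : ℝ) ≤ ((N + 1 : ℕ) : ℝ) * (a / m) := by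
    rw [← mul_div_assoc, le_div_iff₀ mp]
    exact_mod_cast (n1.trans_eq (mul_comm _ _)).le
  have x3 := one_add_mul_le_pow (by linarith : -2 ≤ (a : ℝ) / m) (N + 1)
  have x4 : (1 - (a : ℝ) / m) ^ (N + 1) * (1 + a / m) ^ (N + 1) ≤ 1 := by
    rw [← mul_pow]
    exact pow_le_one₀ (by nlinarith) (by nlinarith)
  have x5 : 0 ≤ (1 - (a : ℝ) / m) ^ (N + 1) := pow_nonneg (by linarith) _
  nlinarith

end Pool.Agent.P.MP_f1a348_lc.KT
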