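import Pool.Agent.P.MP_f1a348_lc.KT.Kempf

/-!
A trilinear form that is invariant modulo traces on irreducible slots and agrees with a trace on
a large box is a trace.
-/

namespace Pool.Agent.P.MP_f1a348_lc.KT

open Module Finset

section
variable {k V : Type} [Field k] [AddCommGroup V] [Module k V]

open Classical in
theorem two_val (G : Submodule k V) {hi lo : ℝ} (h : lo ≤ hi) :
    Val k fun v => if v ∈ G then hi else lo where
  smul c v hc := by simp only [G.smul_mem_iff hc]
  add v w _ _ _ := by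
    by_cases h0 : v + w ∈ G
    · left; rw [if_pos h0]; split_ifs <;> simp [h]
    by_cases h1 : v ∈ G
    · have h2 : w ∉ G := fun h2 => h0 (G.add_mem h1 h2)
      right; rw [if_neg h0, if_neg h2]
    · left; rw [if_neg h0, if_neg h1]

open Classical in
theorem two_sum [Module.Finite k V] (G : Submodule k V) {hi lo : ℝ} (h : lo < hi)
    (b : Basis (Fin (finrank k V)) k V) (hb : Spl b fun v => if v ∈ G then hi else lo)
    (φ : ℝ → ℝ) : ∑ i, φ (if b i ∈ G then hi else lo) =
      finrank k G * φ hi + ((finrank k V : ℝ) - finrank k G) * φ lo := by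
  have c := card_FP (two_val G h.le) hb (fun t => lo < t) fun _ _ a b => b.trans_le a
  have e : FP (two_val G h.le) (fun t => lo < t) (fun _ _ a b => b.trans_le a) = G := by
    ext v
    rw [mem_FP]
    constructor
    · intro hv
      by_contra hc
      have := hv fun h0 => hc (h0 ▸ G.zero_mem)
      rw [if_neg hc] at this
      exact lt_irrefl _ this
    · intro hv _
      rw [if_pos hv]; exact h
  rw [e] at c
  have c1 : (univ.filter fun i => b i ∈ G).card = finrank k G := by
    rw [← c]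
    congr 1
    ext i
    by_cases hi : b i ∈ G <;> simp [hi, h]
  have c2 := card_filter_add_card_filter_not (s := univ) fun i => b i ∈ G
  rw [card_univ, Fintype.card_fin, c1] at c2
  have c3 : ((univ.filter fun i => ¬ b i ∈ G).card : ℝ) = finrank k V - finrank k G := by
    have := congrArg (Nat.cast : ℕ → ℝ) c2
    push_cast at this
    linarith
  simp only [apply_ite φ]
  rw [sum_ite, sum_const, sum_const, c1, nsmul_eq_mul, nsmul_eq_mul, c3]

theorem slot [Finite V] {M : Type} [AddCommGroup M] [Module k M] (π : V →ₗ[k] M) {α : V → ℝ}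
    (h : Val k α) (b : Basis (Fin (finrank k V)) k V) (hb : Spl b α) (htr : ∑ i, α (b i) = 0)
    (e : ℕ) (he : finrank k V = finrank k M + e) (hne : ∃ v, π v ≠ 0)
    (hirr : ∀ t, (FP h (fun s => t ≤ s) fun _ _ a b => b.trans a).map π = ⊥ ∨
      (FP h (fun s => t ≤ s) fun _ _ a b => b.trans a).map π = ⊤) :
    ∃ t, (FP h (fun s => t ≤ s) fun _ _ a b => b.trans a).map π = ⊤ ∧
      (finrank k M : ℝ) ^ 2 * t ^ 2 ≤ e * ∑ i, α (b i) ^ 2 := by
  classical
  have : Module.Finite k V := Module.Finite.of_finite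
  obtain ⟨v, hv, hmax⟩ := Set.exists_max_image {v : V | π v ≠ 0} α (Set.toFinite _) hne
  have top := (hirr (α v)).resolve_left fun hc => hv (by
    have : π v ∈ (FP h (fun s => α v ≤ s) fun _ _ a b => b.trans a).map π :=
      ⟨v, fun _ => le_rfl, rfl⟩
    rwa [hc] at this)
  refine ⟨α v, top, ?_⟩
  set F := FP h (fun s => α v ≤ s) fun _ _ a b => b.trans a with hF
  set F' := FP h (fun s => α v < s) fun _ _ a b => b.trans_le a with hF'
  have le1 : F' ≤ F := fun w hw h0 => (hw h0).le
  have r1 := LinearMap.finrank_range_add_finrank_ker (π.domRestrict F)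
  rw [LinearMap.range_domRestrict, top, finrank_top] at r1
  have r2 : finrank k F' ≤ finrank k (LinearMap.ker (π.domRestrict F)) := by
    rw [← (Submodule.comapSubtypeEquivOfLe le1).finrank_eq]
    refine Submodule.finrank_mono fun w hw => ?_
    by_contra hc
    have h0 : (w : V) ≠ 0 := fun h0 => hc (by simp [h0])
    exact not_le.2 (hw h0) (hmax w hc)
  have c0 := card_eq_add (fun i => α (b i)) (α v)
  have c1 : (univ.filter fun i => α v ≤ α (b i)).card = finrank k F := by
    convert card_FP h hb (fun s => α v ≤ s) fun _ _ a b => b.trans a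
  have c2 : (univ.filter fun i => α v < α (b i)).card = finrank k F' := by
    convert card_FP h hb (fun s => α v < s) fun _ _ a b => b.trans_le a
  have c3 := card_filter_add_card_filter_not (s := univ) fun i => α v = α (b i)
  rw [card_univ, Fintype.card_fin] at c3
  have n1 : finrank k M ≤ (univ.filter fun i => α v = α (b i)).card := by omega
  have n2 : (univ.filter fun i => ¬ α v = α (b i)).card ≤ e := by omega
  rw [← sum_filter_add_sum_filter_not univ fun i => α v = α (b i)] at htr
  have s1 : ∑ i ∈ univ.filter fun i => α v = α (b i), α (b i) =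
      (univ.filter fun i => α v = α (b i)).card * α v := by
    rw [← nsmul_eq_mul, ← sum_const]
    exact sum_congr rfl fun i hi => (mem_filter.1 hi).2.symm
  have s2 := sq_sum_le_card_mul_sum_sq (s := univ.filter fun i => ¬ α v = α (b i))
    (f := fun i => α (b i))
  have s3 : ∑ i ∈ univ.filter fun i => ¬ α v = α (b i), α (b i) ^ 2 ≤ ∑ i, α (b i) ^ 2 :=
    sum_le_sum_of_subset_of_nonneg (filter_subset _ _) fun _ _ _ => sq_nonneg _
  have s4 : ∑ i ∈ univ.filter fun i => ¬ α v = α (b i), α (b i) =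
      -((univ.filter fun i => α v = α (b i)).card * α v) := by linarith
  rw [s4, neg_sq, mul_pow] at s2
  calc (finrank k M : ℝ) ^ 2 * α v ^ 2
      ≤ ((univ.filter fun i => α v = α (b i)).card : ℝ) ^ 2 * α v ^ 2 := by gcongr
    _ ≤ _ := s2
    _ ≤ _ := by gcongr

end

variable {k X Y : Type} [Field k] [AddCommGroup X] [Module k X] [AddCommGroup Y] [Module k Y]

/-- `f` is a trace on the box `U` -/
def Trc (ev : Y →ₗ[k] X →ₗ[k] X →ₗ[k] k) (E : Fin 3 → Submodule k Y)
    (U : Fin 3 → Submodule k X) (f : (Fin 3 → X) → k) : Prop :=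
  ∃ κ : Fin 3 → X →ₗ[k] Y, (∀ j x, κ j x ∈ E j) ∧
    ∀ x, (∀ j, x j ∈ U j) → f x = ∑ j, ev (κ j (x j)) (x (j + 1)) (x (j + 2))

/-- `g` preserves the slots, the spaces of forms, and `θ` modulo traces -/
structure Pres (ev : Y →ₗ[k] X →ₗ[k] X →ₗ[k] k) (E : Fin 3 → Submodule k Y)
    (M : Fin 3 → Submodule k X) (θ : (Fin 3 → X) → k) (g : Fin 3 → X ≃ₗ[k] X) : Prop where
  slot : ∀ j, ∀ x ∈ M j, g j x ∈ M j
  frm : ∀ j, ∃ ρ : E j ≃ₗ[k] E j, ∀ C : E j, ∀ x ∈ M (j + 1), ∀ y ∈ M (j + 2),
    ev (ρ C) x y = ev C (g (j + 1) x) (g (j + 2) y)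
  inv : Trc ev E M fun x => θ (fun j => g j (x j)) - θ x

def trm (ev : Y →ₗ[k] X →ₗ[k] X →ₗ[k] k) (j : Fin 3) :
    MultilinearMap k (fun _ : Fin 3 => X × Y) k :=
  MultilinearMap.mk' (fun y => ev (y j).2 (y (j + 1)).1 (y (j + 2)).1)
    (fun y i a b => by fin_cases i <;> fin_cases j <;> simp [Function.update])
    (fun y i a b => by fin_cases i <;> fin_cases j <;> simp [Function.update])

/-- the form extended by trace coordinates -/
def hat (ev : Y →ₗ[k] X →ₗ[k] X →ₗ[k] k) (θ : MultilinearMap k (fun _ : Fin 3 => X) k)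
    (M : Fin 3 → Submodule k X) (E : Fin 3 → Submodule k Y) :
    MultilinearMap k (fun j => M j × E j) k :=
  (θ.compLinearMap (fun _ => LinearMap.fst k X Y) + ∑ j, trm ev j).compLinearMap
    fun j => (M j).subtype.prodMap (E j).subtype

theorem hat_apply (ev : Y →ₗ[k] X →ₗ[k] X →ₗ[k] k) (θ : MultilinearMap k (fun _ : Fin 3 => X) k)
    (M : Fin 3 → Submodule k X) (E : Fin 3 → Submodule k Y) (y : ∀ j, M j × E j) :
    hat ev θ M E y = θ (fun j => (y j).1) + ∑ j, ev (y j).2 (y (j + 1)).1 (y (j + 2)).1 := by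
  simp only [hat, MultilinearMap.compLinearMap_apply, add_apply, _root_.sum_apply]
  rfl

theorem shear [Module.Finite k X] [Module.Finite k Y] (ev : Y →ₗ[k] X →ₗ[k] X →ₗ[k] k)
    (θ : MultilinearMap k (fun _ : Fin 3 => X) k) (M : Fin 3 → Submodule k X)
    (E : Fin 3 → Submodule k Y) (g : Fin 3 → X ≃ₗ[k] X) (h : Pres ev E M θ g) :
    ∃ G : ∀ j, (M j × E j) ≃ₗ[k] (M j × E j),
      (∀ y, hat ev θ M E (fun j => G j (y j)) = hat ev θ M E y) ∧ ∀ j y, g j (G j y).1 = y.1 := by
  obtain ⟨κ, hκ, hx⟩ := h.inv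
  choose ρ hρ using h.frm
  let r : ∀ j, M j ≃ₗ[k] M j := fun j => LinearEquiv.ofInjectiveEndo
    ((g j).toLinearMap.restrict (h.slot j)) fun a b hab =>
      Subtype.ext ((g j).injective (congrArg Subtype.val hab))
  have hr : ∀ j y, g j ((r j).symm y) = y := fun j y =>
    congrArg Subtype.val ((r j).apply_symm_apply y)
  let H : ∀ j, (M j × E j) →ₗ[k] (M j × E j) := fun j =>
    ((r j).symm.toLinearMap ∘ₗ LinearMap.fst k _ _).prod ((ρ j).toLinearMap ∘ₗ LinearMap.snd k _ _ +
      (κ j).codRestrict (E j) (hκ j) ∘ₗ (M j).subtype ∘ₗ (r j).symm.toLinearMap ∘ₗ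
        LinearMap.fst k _ _)
  have H1 : ∀ j y, (H j y).1 = (r j).symm y.1 := fun _ _ => rfl
  have H2 : ∀ j y, ((H j y).2 : Y) = ρ j y.2 + κ j ((r j).symm y.1) := fun _ _ => rfl
  have inj : ∀ j, Function.Injective (H j) := fun j => by
    rw [injective_iff_map_eq_zero]
    intro y hy
    have a1 : y.1 = 0 := by
      have := H1 j y
      rw [hy] at this
      simpa using this.symm
    refine Prod.ext a1 ?_
    have := H2 j y
    rw [hy, a1] at this
    simpa using this.symm
  refine ⟨fun j => LinearEquiv.ofInjectiveEndo (H j) (inj j), fun y => ?_, fun j y => hr j y.1⟩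
  have := hx (fun j => ((r j).symm (y j).1 : M j)) fun j => Subtype.property _
  simp only [hr] at this
  simp only [hat_apply, LinearEquiv.coe_ofInjectiveEndo, H1, H2, map_add, LinearMap.add_apply,
    hρ _ _ _ (Subtype.property _) _ (Subtype.property _), hr, sum_add_distrib]
  rw [← this]
  ring

theorem box [Finite X] [Finite Y] (ev : Y →ₗ[k] X →ₗ[k] X →ₗ[k] k)
    (θ : MultilinearMap k (fun _ : Fin 3 => X) k) (M U : Fin 3 → Submodule k X)
    (E : Fin 3 → Submodule k Y) (Γ : Set (Fin 3 → X ≃ₗ[k] X)) (hΓ : ∀ g ∈ Γ, Pres ev E M θ g)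
    (hirr : ∀ j W, W ≤ M j → (∀ g ∈ Γ, ∀ x ∈ W, g j x ∈ W) → W = ⊥ ∨ W = M j)
    (hpos : ∀ j, 0 < finrank k (M j)) (hbig : ∀ j, 40 * finrank k (E j) ≤ finrank k (M j))
    (hU : ∀ j, U j ≤ M j) (hbox : Trc ev E U θ)
    (hc : ∑ j, ((finrank k (M j) : ℝ) - finrank k (U j)) / finrank k (M j) ≤ 1 / 2) :
    Trc ev E M θ := by
  classical
  have : Module.Finite k X := Module.Finite.of_finite
  have : Module.Finite k Y := Module.Finite.of_finite
  obtain ⟨κ, hκ, hx⟩ := hbox
  let ψ : ∀ j, U j →ₗ[k] M j × E j := fun j =>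
    (Submodule.inclusion (hU j)).prod (-((κ j).codRestrict (E j) (hκ j) ∘ₗ (U j).subtype))
  let G : ∀ j, Submodule k (M j × E j) := fun j => LinearMap.range (ψ j)
  have dG : ∀ j, finrank k (G j) = finrank k (U j) := fun j =>
    LinearMap.finrank_range_of_inj fun a b hab =>
      Subtype.ext (congrArg (fun y : M j × E j => (y.1 : X)) hab)
  have dV : ∀ j, finrank k (M j × E j) = finrank k (M j) + finrank k (E j) := fun j =>
    finrank_prod
  have mp : ∀ j, (0 : ℝ) < finrank k (M j) := fun j => by exact_mod_cast hpos j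
  have eb : ∀ j, 40 * (finrank k (E j) : ℝ) ≤ finrank k (M j) := fun j => by
    exact_mod_cast hbig j
  have e0 : ∀ j, (0 : ℝ) ≤ finrank k (E j) := fun j => Nat.cast_nonneg _
  have ul : ∀ j, (finrank k (U j) : ℝ) ≤ finrank k (M j) := fun j => by
    exact_mod_cast Submodule.finrank_mono (hU j)
  have u0 : ∀ j, (0 : ℝ) ≤ finrank k (U j) := fun j => Nat.cast_nonneg _
  let c : Fin 3 → ℝ := fun j => finrank k (M j) + finrank k (E j) - finrank k (U j)
  let δ : Fin 3 → ℝ := fun j => c j / (finrank k (M j) + finrank k (E j))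
  have c0 : ∀ j, 0 ≤ c j := fun j => by simp only [c]; linarith [ul j, e0 j]
  have hcm : ∑ j, c j / finrank k (M j) ≤ 23 / 40 := by
    have : ∀ j, c j / finrank k (M j) ≤
        ((finrank k (M j) : ℝ) - finrank k (U j)) / finrank k (M j) + 1 / 40 := fun j => by
      rw [div_add' _ _ _ (mp j).ne', div_le_div_iff_of_pos_right (mp j)]
      simp only [c]; linarith [eb j]
    have h2 := sum_le_sum fun j (_ : j ∈ univ) => this j
    rw [sum_add_distrib] at h2
    simp only [sum_const, card_univ, Fintype.card_fin, nsmul_eq_mul] at h2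
    push_cast at h2
    linarith
  have δle : ∀ j, δ j ≤ c j / finrank k (M j) := fun j =>
    div_le_div_of_nonneg_left (c0 j) (mp j) (by linarith [e0 j])
  have δc : ∀ j, δ j * (finrank k (M j) + finrank k (E j)) = c j := fun j =>
    div_mul_cancel₀ _ (by linarith [mp j, e0 j])
  have δ0 : ∀ j, 0 ≤ δ j := fun j => div_nonneg (c0 j) (by linarith [mp j, e0 j])
  have lt : ∀ j, 5 / 2 * (δ j - 1) < 5 / 2 * δ j := fun j => by linarith
  choose b hb _ using fun j => two_flags (two_val (G j) (lt j).le) (two_val (G j) (lt j).le)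
  have f0 : Feas (hat ev θ M E) (fun j v => if v ∈ G j then 5 / 2 * δ j else 5 / 2 * (δ j - 1)) b :=
    { val := fun j => two_val (G j) (lt j).le
      spl := hb
      tr := fun j => by
        rw [two_sum (G j) (lt j) (b j) (hb j) fun t => t, dG, dV]
        have := δc j
        simp only [c] at this
        push_cast
        linarith
      le := fun y hy => by
        have ex : ∃ i, y i ∉ G i := by
          by_contra hn
          push Not at hn
          choose u hu using hn
          have a1 : ∀ j, ((y j).1 : X) = u j := fun j => by rw [← hu j]; rfl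
          have a2 : ∀ j, ((y j).2 : Y) = -κ j (u j) := fun j => by rw [← hu j]; rfl
          refine hy ?_
          rw [hat_apply]
          simp only [a1, a2, map_neg, LinearMap.neg_apply, sum_neg_distrib]
          rw [hx _ fun j => (u j).2, add_neg_cancel]
        obtain ⟨i, hi⟩ := ex
        have a3 : ∑ j, (if y j ∈ G j then 5 / 2 * δ j else 5 / 2 * (δ j - 1)) ≤
            ∑ j, (5 / 2 * δ j - if j = i then 5 / 2 else 0) := sum_le_sum fun j _ => by
          by_cases hj : j = i
          · subst hj; rw [if_neg hi, if_pos rfl]; linarith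
          · rw [if_neg hj]; split_ifs <;> linarith
        rw [sum_sub_distrib, sum_ite_eq', if_pos (mem_univ i), ← mul_sum] at a3
        have a4 := sum_le_sum fun j (_ : j ∈ univ) => δle j
        linarith }
  obtain ⟨α, d, hf, hq, hinv⟩ := kempf (hat ev θ M E) (fun j => 1 / finrank k (M j))
    (fun j => one_div_pos.2 (mp j)) _ b f0
  have q0 : QQ (fun j => 1 / (finrank k (M j) : ℝ)) α d ≤ 4 := by
    refine hq.trans ?_
    have : ∀ j, 1 / (finrank k (M j) : ℝ) *
        ∑ i, (if b j i ∈ G j then 5 / 2 * δ j else 5 / 2 * (δ j - 1)) ^ 2 ≤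
        25 / 4 * (c j / finrank k (M j)) := fun j => by
      rw [two_sum (G j) (lt j) (b j) (hb j) fun t => t ^ 2, dG, dV, one_div_mul_eq_div,
        ← mul_div_assoc _ (c j) (finrank k (M j) : ℝ), div_le_div_iff_of_pos_right (mp j)]
      have h1 := δc j
      have h2 := mul_nonneg (δ0 j) (c0 j)
      have h3 : (finrank k (U j) : ℝ) = finrank k (M j) + finrank k (E j) - c j := by
        simp only [c]; ring
      push_cast
      rw [h3]
      have h4 : (finrank k (M j) + finrank k (E j) : ℝ) * δ j ^ 2 = δ j * c j := by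
        rw [← h1]; ring
      nlinarith
    have h2 := sum_le_sum fun j (_ : j ∈ univ) => this j
    rw [← mul_sum] at h2
    exact h2.trans (by linarith)
  have sl : ∀ j, ∃ t, (FP (hf.val j) (fun s => t ≤ s) fun _ _ a b => b.trans a).map
      (LinearMap.fst k (M j) (E j)) = ⊤ ∧
      (finrank k (M j) : ℝ) ^ 2 * t ^ 2 ≤ finrank k (E j) * ∑ i, α j (d j i) ^ 2 := fun j => by
    refine slot _ (hf.val j) (d j) (hf.spl j) (hf.tr j) _ (dV j) ?_ fun t => ?_
    · obtain ⟨x, hx⟩ := finrank_pos_iff_exists_ne_zero.1 (hpos j)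
      exact ⟨(x, 0), hx⟩
    have := hirr j (((FP (hf.val j) (fun s => t ≤ s) fun _ _ a b => b.trans a).map
      (LinearMap.fst k (M j) (E j))).map (M j).subtype) (Submodule.map_subtype_le _ _) (by
        rintro g hg _ ⟨_, ⟨v, hv, rfl⟩, rfl⟩
        obtain ⟨H, h1, h2⟩ := shear ev θ M E g (hΓ g hg)
        refine ⟨_, ⟨(H j).symm v, fun h0 => ?_, rfl⟩, ?_⟩
        · rw [← hinv H h1 j _ h0, LinearEquiv.apply_symm_apply]
          exact hv (by simpa using h0)
        · have := h2 j ((H j).symm v)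
          rw [LinearEquiv.apply_symm_apply] at this
          exact this.symm)
    refine this.imp (fun h => ?_) fun h => ?_
    · exact Submodule.map_injective_of_injective (M j).injective_subtype (by simpa using h)
    · exact Submodule.map_injective_of_injective (M j).injective_subtype (by simpa using h)
  choose t ht1 ht2 using sl
  have tb : ∀ j, -1 / 3 < t j := fun j => by
    have a0 : 0 ≤ ∑ i, α j (d j i) ^ 2 := sum_nonneg fun _ _ => sq_nonneg _
    have a1 : 1 / (finrank k (M j) : ℝ) * ∑ i, α j (d j i) ^ 2 ≤ 4 :=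
      (single_le_sum (f := fun j => 1 / (finrank k (M j) : ℝ) * ∑ i, α j (d j i) ^ 2)
        (fun j _ => mul_nonneg (one_div_pos.2 (mp j)).le (sum_nonneg fun _ _ => sq_nonneg _))
        (mem_univ j)).trans q0
    rw [one_div_mul_eq_div, div_le_iff₀ (mp j)] at a1
    have a2 : (finrank k (M j) : ℝ) ^ 2 * t j ^ 2 ≤ (finrank k (M j) : ℝ) ^ 2 * (1 / 10) := by
      have a3 := mul_le_mul_of_nonneg_left a1 (e0 j)
      have a4 := mul_le_mul_of_nonneg_right (eb j) (mp j).le
      nlinarith [ht2 j]
    have a5 := le_of_mul_le_mul_left a2 (pow_pos (mp j) 2)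
    nlinarith
  choose s hs using fun j => LinearMap.exists_rightInverse_of_surjective
    ((LinearMap.fst k (M j) (E j)).domRestrict
      (FP (hf.val j) (fun s => t j ≤ s) fun _ _ a b => b.trans a))
    (by rw [LinearMap.range_domRestrict, ht1])
  choose κ' hκ' using fun j => LinearMap.exists_extend
    (-(LinearMap.snd k (M j) (E j) ∘ₗ Submodule.subtype _ ∘ₗ s j))
  refine ⟨fun j => (E j).subtype ∘ₗ κ' j, fun j x => (κ' j x).2, fun x hxM => ?_⟩
  have z : hat ev θ M E (fun j => s j ⟨x j, hxM j⟩) = 0 := by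
    by_contra hn
    have a1 := hf.le _ hn
    have a2 : ∑ j, t j ≤ ∑ j, α j (s j ⟨x j, hxM j⟩) := sum_le_sum fun j _ =>
      (s j ⟨x j, hxM j⟩).2 fun h0 => hn ((hat ev θ M E).map_coord_zero j h0)
    rw [Fin.sum_univ_three] at a2
    linarith [tb 0, tb 1, tb 2]
  have a1 : ∀ j, (((s j ⟨x j, hxM j⟩ : M j × E j).1 : M j) : X) = x j := fun j =>
    congrArg Subtype.val (LinearMap.congr_fun (hs j) ⟨x j, hxM j⟩)
  have a2 : ∀ j, (((s j ⟨x j, hxM j⟩ : M j × E j).2 : E j) : Y) = -(κ' j (x j) : Y) :=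
    fun j => by
      have := congrArg Subtype.val (LinearMap.congr_fun (hκ' j) ⟨x j, hxM j⟩)
      rw [eq_neg_iff_add_eq_zero, add_comm, ← eq_neg_iff_add_eq_zero]
      exact this
  rw [hat_apply] at z
  simp only [a1, a2, map_neg, LinearMap.neg_apply, sum_neg_distrib] at z
  exact add_neg_eq_zero.1 z

end Pool.Agent.P.MP_f1a348_lc.KT
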