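import Pool.Agent.P.MP_f1a348_lc.KT.Box

/-!
Few translates of a subspace span most of an irreducible module; a form that is invariant modulo
traces and compresses cheaply along one subspace is a trace.
-/

namespace Pool.Agent.P.MP_f1a348_lc.KT

open Module Finset

variable {k X Y : Type} [Field k] [AddCommGroup X] [Module k X] [AddCommGroup Y] [Module k Y]

theorem supmod [Module.Finite k X] (P Q S : Submodule k X) :
    finrank k (P ⊓ S : Submodule k X) + finrank k (Q ⊓ S : Submodule k X) ≤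
      finrank k ((P ⊔ Q) ⊓ S : Submodule k X) + finrank k (P ⊓ Q ⊓ S : Submodule k X) := by
  rw [← Submodule.finrank_sup_add_finrank_inf_eq]
  refine add_le_add (Submodule.finrank_mono (sup_le (inf_le_inf_right _ le_sup_left)
    (inf_le_inf_right _ le_sup_right))) (Submodule.finrank_mono fun x hx => ?_)
  exact ⟨⟨hx.1.1, hx.2.1⟩, hx.1.2⟩

theorem cov [Finite X] (Γ : Set (X ≃ₗ[k] X)) (hne : Γ.Nonempty)
    (hmul : ∀ g ∈ Γ, ∀ h ∈ Γ, g * h ∈ Γ) (M A S : Submodule k X)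
    (hM : ∀ g ∈ Γ, ∀ x ∈ M, g x ∈ M)
    (hirr : ∀ W, W ≤ M → (∀ g ∈ Γ, ∀ x ∈ W, g x ∈ W) → W = ⊥ ∨ W = M) (hA : A ≤ M) :
    ∃ g ∈ Γ, finrank k M * finrank k (A.map g.toLinearMap ⊓ S : Submodule k X) ≤
      finrank k A * finrank k S := by
  classical
  have : Module.Finite k X := Module.Finite.of_finite
  have : Finite (X ≃ₗ[k] X) := Finite.of_injective (fun g => (g : X → X)) DFunLike.coe_injective
  have : Finite (Submodule k X) := Finite.of_injective (fun g => (g : Set X)) SetLike.coe_injective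
  let T := (Set.toFinite Γ).toFinset
  have hT : ∀ g, g ∈ T ↔ g ∈ Γ := fun g => Set.Finite.mem_toFinset _
  let φ : Submodule k X → ℤ := fun W => ∑ g ∈ T,
    ((finrank k M : ℤ) * finrank k (W.map g.toLinearMap ⊓ S : Submodule k X) -
      finrank k W * finrank k S)
  have inv : ∀ h ∈ Γ, ∀ W, φ (W.map h.toLinearMap) = φ W := fun h hh W => by
    have a : ∀ g ∈ T, g * h ∈ T := fun g hg => (hT _).2 (hmul g ((hT _).1 hg) h hh)
    refine sum_bij (fun g _ => g * h) a (fun _ _ _ _ e => mul_right_cancel e)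
      (fun g hg => ?_) fun g _ => ?_
    · obtain ⟨a, ha, e⟩ := surj_on_of_inj_on_of_card_le (fun g _ => g * h) a
        (fun _ _ _ _ e => mul_right_cancel e) le_rfl g hg
      exact ⟨a, ha, e.symm⟩
    · rw [LinearEquiv.finrank_map_eq, ← Submodule.map_comp]
      rfl
  have sup : ∀ P Q, φ P + φ Q ≤ φ (P ⊔ Q) + φ (P ⊓ Q) := fun P Q => by
    simp only [φ, ← sum_add_distrib]
    refine sum_le_sum fun g _ => ?_
    have a1 := supmod (P.map g.toLinearMap) (Q.map g.toLinearMap) S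
    rw [← Submodule.map_sup, ← Submodule.map_inf _ g.injective] at a1
    have a2 := Submodule.finrank_sup_add_finrank_inf_eq P Q
    zify at a1 a2
    have a3 := mul_le_mul_of_nonneg_left a1 (Int.natCast_nonneg (finrank k M))
    have a4 := congrArg (· * (finrank k S : ℤ)) a2
    linarith
  obtain ⟨W1, h1, m1⟩ := Set.exists_max_image {W | W ≤ M} φ (Set.toFinite _) ⟨M, le_refl M⟩
  obtain ⟨W, ⟨h2, h3⟩, m2⟩ := Set.exists_max_image {W | W ≤ M ∧ φ W = φ W1}
    (fun W : Submodule k X => finrank k W) (Set.toFinite _) ⟨W1, h1, rfl⟩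
  have hW : ∀ g ∈ Γ, ∀ x ∈ W, g x ∈ W := fun g hg x hx => by
    have l1 : W.map g.toLinearMap ≤ M := by
      rintro _ ⟨y, hy, rfl⟩
      exact hM g hg y (h2 hy)
    have a1 := sup W (W.map g.toLinearMap)
    have a2 := m1 (W ⊓ W.map g.toLinearMap) (inf_le_left.trans h2)
    have a3 := m1 (W ⊔ W.map g.toLinearMap) (sup_le h2 l1)
    rw [inv g hg, h3] at a1
    have a4 := m2 (W ⊔ W.map g.toLinearMap) ⟨sup_le h2 l1, by omega⟩
    rw [Submodule.eq_of_le_of_finrank_le le_sup_left a4]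
    exact Submodule.mem_sup_right ⟨x, hx, rfl⟩
  have z : φ W ≤ 0 := by
    rcases hirr W h2 hW with rfl | rfl
    · refine sum_nonpos fun g _ => ?_
      rw [Submodule.map_bot, bot_inf_eq, finrank_bot]
      simp
    · refine sum_nonpos fun g _ => sub_nonpos.2 (mul_le_mul_of_nonneg_left ?_ (Int.natCast_nonneg _))
      exact_mod_cast Submodule.finrank_mono inf_le_right
  have z2 : φ A ≤ ∑ _g ∈ T, (0 : ℤ) := by
    rw [sum_const_zero]
    exact (m1 A hA).trans (h3 ▸ z)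
  obtain ⟨g, hg, e⟩ := exists_le_of_sum_le (by
    obtain ⟨g, hg⟩ := hne
    exact ⟨g, (hT _).2 hg⟩) z2
  exact ⟨g, (hT _).1 hg, by exact_mod_cast sub_nonpos.1 e⟩

/-- the vectors whose slice agrees with a form from `E` on `U1 × U2` -/
def Dm (ev : Y →ₗ[k] X →ₗ[k] X →ₗ[k] k) (θ : MultilinearMap k (fun _ : Fin 3 => X) k)
    (E : Submodule k Y) (U1 U2 : Submodule k X) : Submodule k X where
  carrier := {x | ∃ C ∈ E, ∀ y ∈ U1, ∀ z ∈ U2, θ ![x, y, z] = ev C y z}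
  add_mem' := by
    rintro x x' ⟨C, hC, h⟩ ⟨C', hC', h'⟩
    refine ⟨C + C', E.add_mem hC hC', fun y hy z hz => ?_⟩
    rw [map_add, LinearMap.add_apply, LinearMap.add_apply, ← h y hy z hz, ← h' y hy z hz]
    exact θ.cons_add ![y, z] x x'
  zero_mem' := ⟨0, E.zero_mem, fun y _ z _ => by
    rw [θ.map_coord_zero 0 rfl]; simp⟩
  smul_mem' := by
    rintro c x ⟨C, hC, h⟩
    refine ⟨c • C, E.smul_mem c hC, fun y hy z hz => ?_⟩
    rw [map_smul, LinearMap.smul_apply, LinearMap.smul_apply, ← h y hy z hz]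
    exact θ.cons_smul ![y, z] c x

theorem Dm_anti (ev : Y →ₗ[k] X →ₗ[k] X →ₗ[k] k) (θ : MultilinearMap k (fun _ : Fin 3 => X) k)
    (E : Submodule k Y) {U1 U2 W1 W2 : Submodule k X} (h1 : W1 ≤ U1) (h2 : W2 ≤ U2) :
    Dm ev θ E U1 U2 ≤ Dm ev θ E W1 W2 :=
  fun _ ⟨C, hC, h⟩ => ⟨C, hC, fun y hy z hz => h y (h1 hy) z (h2 hz)⟩

theorem Dm_trc (ev : Y →ₗ[k] X →ₗ[k] X →ₗ[k] k) (θ : MultilinearMap k (fun _ : Fin 3 => X) k)
    (E : Fin 3 → Submodule k Y) (S U1 U2 : Submodule k X) (h : S ≤ Dm ev θ (E 0) U1 U2) :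
    Trc ev E ![S, U1, U2] θ := by
  choose C hC hx using fun i => h (Basis.ofVectorSpace k S i).2
  obtain ⟨κ, hκ⟩ := LinearMap.exists_extend
    ((Basis.ofVectorSpace k S).constr k fun i => (⟨C i, hC i⟩ : E 0))
  refine ⟨![(E 0).subtype ∘ₗ κ, 0, 0], fun j x => ?_, fun x hxU => ?_⟩
  · fin_cases j
    · exact (κ x).2
    · exact (E 1).zero_mem
    · exact (E 2).zero_mem
  have e : x = ![x 0, x 1, x 2] := by ext j; fin_cases j <;> rfl
  have e2 : (θ.toLinearMap x 0) ∘ₗ S.subtype =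
      (ev.flip (x 1)).flip (x 2) ∘ₗ (E 0).subtype ∘ₗ κ ∘ₗ S.subtype := by
    refine (Basis.ofVectorSpace k S).ext fun i => ?_
    rw [hκ]
    have := hx i (x 1) (hxU 1) (x 2) (hxU 2)
    simp only [LinearMap.comp_apply, Basis.constr_basis, LinearMap.flip_apply,
      Submodule.subtype_apply, MultilinearMap.toLinearMap_apply]
    rw [← this]
    congr 1
    ext j
    fin_cases j <;> simp
  have := LinearMap.congr_fun e2 ⟨x 0, hxU 0⟩
  rw [Fin.sum_univ_three]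
  simpa using this

theorem inf_ker [Module.Finite k X] [Module.Finite k Y] (U : Submodule k X) (E : Submodule k Y)
    (κ : X →ₗ[k] Y) (h : ∀ x, κ x ∈ E) :
    finrank k U ≤ finrank k (U ⊓ LinearMap.ker κ : Submodule k X) + finrank k E := by
  have r1 := LinearMap.finrank_range_add_finrank_ker (κ.domRestrict U)
  have r2 : finrank k (LinearMap.range (κ.domRestrict U)) ≤ finrank k E :=
    Submodule.finrank_mono (by rintro _ ⟨x, rfl⟩; exact h x)
  have r3 : finrank k (LinearMap.ker (κ.domRestrict U)) ≤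
      finrank k (U ⊓ LinearMap.ker κ : Submodule k X) := by
    rw [← (Submodule.comapSubtypeEquivOfLe (inf_le_left (b := LinearMap.ker κ))).finrank_eq]
    exact Submodule.finrank_mono fun w hw => ⟨w.2, hw⟩
  omega

theorem Dm_move [Module.Finite k X] [Module.Finite k Y] (ev : Y →ₗ[k] X →ₗ[k] X →ₗ[k] k)
    (θ : MultilinearMap k (fun _ : Fin 3 => X) k) (M : Fin 3 → Submodule k X)
    (E : Fin 3 → Submodule k Y) (g : Fin 3 → X ≃ₗ[k] X) (h : Pres ev E M θ g)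
    (A U1 U2 : Submodule k X) (hA : A ≤ M 0) (h1 : U1 ≤ M 1) (h2 : U2 ≤ M 2)
    (hD : A ≤ Dm ev θ (E 0) U1 U2) : ∃ W1 W2, W1 ≤ M 1 ∧ W2 ≤ M 2 ∧
      finrank k U1 ≤ finrank k W1 + finrank k (E 1) ∧
      finrank k U2 ≤ finrank k W2 + finrank k (E 2) ∧
      A.map (g 0).toLinearMap ≤ Dm ev θ (E 0) W1 W2 := by
  obtain ⟨κ, hκ, hx⟩ := h.inv
  obtain ⟨ρ, hρ⟩ := h.frm 0
  refine ⟨(U1 ⊓ LinearMap.ker (κ 1)).map (g 1).toLinearMap,
    (U2 ⊓ LinearMap.ker (κ 2)).map (g 2).toLinearMap, ?_, ?_, ?_, ?_, ?_⟩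
  · rintro _ ⟨y, hy, rfl⟩
    exact h.slot 1 y (h1 hy.1)
  · rintro _ ⟨y, hy, rfl⟩
    exact h.slot 2 y (h2 hy.1)
  · rw [LinearEquiv.finrank_map_eq]
    exact inf_ker _ _ _ (hκ 1)
  · rw [LinearEquiv.finrank_map_eq]
    exact inf_ker _ _ _ (hκ 2)
  rintro _ ⟨x, hxA, rfl⟩
  obtain ⟨C, hC, hc⟩ := hD hxA
  refine ⟨ρ.symm ⟨C + κ 0 x, (E 0).add_mem hC (hκ 0 x)⟩, Subtype.property _, ?_⟩
  rintro _ ⟨y, hy, rfl⟩ _ ⟨z, hz, rfl⟩
  have a1 := hρ (ρ.symm ⟨C + κ 0 x, (E 0).add_mem hC (hκ 0 x)⟩) y (h1 hy.1) z (h2 hz.1)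
  rw [LinearEquiv.apply_symm_apply] at a1
  have a2 := hx ![x, y, z] fun j => by
    fin_cases j
    · exact hA hxA
    · exact h1 hy.1
    · exact h2 hz.1
  have a3 : κ 1 y = 0 := hy.2
  have a4 : κ 2 z = 0 := hz.2
  have a5 : (fun j => g j (![x, y, z] j)) = ![g 0 x, g 1 y, g 2 z] := by
    ext j; fin_cases j <;> rfl
  beta_reduce at a2
  rw [Fin.sum_univ_three, a5, hc y hy.1 z hz.1] at a2
  simp [a3, a4] at a2
  refine Eq.trans ?_ a1
  simp only [map_add, LinearMap.add_apply]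
  exact eq_add_of_sub_eq' a2

theorem compress [Finite X] [Finite Y] (ev : Y →ₗ[k] X →ₗ[k] X →ₗ[k] k)
    (θ : MultilinearMap k (fun _ : Fin 3 => X) k) (M : Fin 3 → Submodule k X)
    (E : Fin 3 → Submodule k Y) (Γ : Set (Fin 3 → X ≃ₗ[k] X)) (hne : Γ.Nonempty)
    (hmul : ∀ g ∈ Γ, ∀ h ∈ Γ, g * h ∈ Γ) (hΓ : ∀ g ∈ Γ, Pres ev E M θ g)
    (hirr : ∀ j W, W ≤ M j → (∀ g ∈ Γ, ∀ x ∈ W, g j x ∈ W) → W = ⊥ ∨ W = M j)
    (hpos : ∀ j, 0 < finrank k (M j)) (hbig : ∀ j, 40 * finrank k (E j) ≤ finrank k (M j))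
    (A U1 U2 : Submodule k X) (hA : A ≤ M 0) (h1 : U1 ≤ M 1) (h2 : U2 ≤ M 2)
    (hD : A ≤ Dm ev θ (E 0) U1 U2) (N : ℕ)
    (hN : (1 - (finrank k A : ℝ) / finrank k (M 0)) ^ N +
      N * ((finrank k (M 1) : ℝ) - finrank k U1 + finrank k (E 1)) / finrank k (M 1) +
      N * ((finrank k (M 2) : ℝ) - finrank k U2 + finrank k (E 2)) / finrank k (M 2) ≤ 1 / 2) :
    Trc ev E M θ := by
  have : Module.Finite k X := Module.Finite.of_finite
  have : Module.Finite k Y := Module.Finite.of_finite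
  have mp : ∀ j, (0 : ℝ) < finrank k (M j) := fun j => by exact_mod_cast hpos j
  have al : (finrank k A : ℝ) ≤ finrank k (M 0) := by exact_mod_cast Submodule.finrank_mono hA
  have key : ∀ n : ℕ, ∃ S W1 W2 : Submodule k X, S ≤ M 0 ∧ W1 ≤ M 1 ∧ W2 ≤ M 2 ∧
      S ≤ Dm ev θ (E 0) W1 W2 ∧ (finrank k (M 0) : ℝ) - finrank k S ≤
        (1 - (finrank k A : ℝ) / finrank k (M 0)) ^ n * finrank k (M 0) ∧
      (finrank k (M 1) : ℝ) - finrank k W1 ≤
        n * ((finrank k (M 1) : ℝ) - finrank k U1 + finrank k (E 1)) ∧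
      (finrank k (M 2) : ℝ) - finrank k W2 ≤
        n * ((finrank k (M 2) : ℝ) - finrank k U2 + finrank k (E 2)) := by
    intro n
    induction n with
    | zero => exact ⟨⊥, M 1, M 2, bot_le, le_rfl, le_rfl, bot_le, by simp, by simp, by simp⟩
    | succ n ih =>
      obtain ⟨S, W1, W2, s0, s1, s2, sD, b0, b1, b2⟩ := ih
      obtain ⟨_, ⟨g, hg, rfl⟩, hc⟩ := cov ((fun g => g 0) '' Γ) (hne.image _)
        (by rintro _ ⟨a, ha, rfl⟩ _ ⟨b, hb, rfl⟩; exact ⟨a * b, hmul a ha b hb, rfl⟩) (M 0) A S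
        (by rintro _ ⟨a, ha, rfl⟩; exact (hΓ a ha).slot 0)
        (fun W hW hi => hirr 0 W hW fun g hg => hi _ ⟨g, hg, rfl⟩) hA
      obtain ⟨V1, V2, v1, v2, d1, d2, vD⟩ := Dm_move ev θ M E g (hΓ g hg) A U1 U2 hA h1 h2 hD
      have l0 : A.map (g 0).toLinearMap ≤ M 0 := by
        rintro _ ⟨y, hy, rfl⟩
        exact (hΓ g hg).slot 0 y (hA hy)
      have e0 := Submodule.finrank_sup_add_finrank_inf_eq (A.map (g 0).toLinearMap) S
      rw [LinearEquiv.finrank_map_eq] at e0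
      have e1 := Submodule.finrank_sup_add_finrank_inf_eq W1 V1
      have e2 := Submodule.finrank_sup_add_finrank_inf_eq W2 V2
      have f1 := Submodule.finrank_mono (sup_le s1 v1)
      have f2 := Submodule.finrank_mono (sup_le s2 v2)
      rify at e0 e1 e2 f1 f2 d1 d2 hc
      refine ⟨A.map (g 0).toLinearMap ⊔ S, W1 ⊓ V1, W2 ⊓ V2, sup_le l0 s0, inf_le_left.trans s1,
        inf_le_left.trans s2, sup_le (vD.trans (Dm_anti _ _ _ inf_le_right inf_le_right))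
          (sD.trans (Dm_anti _ _ _ inf_le_left inf_le_left)), ?_, ?_, ?_⟩
      · have p0 : 0 ≤ 1 - (finrank k A : ℝ) / finrank k (M 0) :=
          sub_nonneg.2 ((div_le_one (mp 0)).2 al)
        have p1 := mul_le_mul_of_nonneg_left b0 p0
        rw [pow_succ', mul_assoc]
        refine le_trans ?_ p1
        rw [one_sub_div (mp 0).ne', div_mul_eq_mul_div, le_div_iff₀ (mp 0)]
        have := congrArg (· * (finrank k (M 0) : ℝ)) e0
        nlinarith
      · push_cast; linarith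
      · push_cast; linarith
  obtain ⟨S, W1, W2, s0, s1, s2, sD, b0, b1, b2⟩ := key N
  refine box ev θ M ![S, W1, W2] E Γ hΓ hirr hpos hbig (fun j => ?_) (Dm_trc ev θ E _ _ _ sD) ?_
  · fin_cases j
    exacts [s0, s1, s2]
  rw [Fin.sum_univ_three]
  refine le_trans (add_le_add (add_le_add ?_ ?_) ?_) hN
  · exact (div_le_iff₀ (mp 0)).2 b0
  · exact div_le_div_of_nonneg_right b1 (mp 1).le
  · exact div_le_div_of_nonneg_right b2 (mp 2).le

end Pool.Agent.P.MP_f1a348_lc.KT
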