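import Pool.Agent.P.MP_f1a348_lc.KT.Val

/-!
The optimal destabilising family of weighted flags of a multilinear form is unique, hence
invariant under all automorphisms of the form.
-/

namespace Pool.Agent.P.MP_f1a348_lc.KT

open Module Finset

variable {k ι : Type} [Field k] [Fintype ι] [DecidableEq ι] {V : ι → Type}
  [∀ j, AddCommGroup (V j)] [∀ j, Module k (V j)]

/-- families of bases -/
abbrev Bs (k : Type) {ι : Type} [Field k] (V : ι → Type) [∀ j, AddCommGroup (V j)]
    [∀ j, Module k (V j)] : Type := ∀ j, Basis (Fin (finrank k (V j))) k (V j)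

structure Feas (θ : MultilinearMap k V k) (α : ∀ j, V j → ℝ) (b : Bs k V) : Prop where
  val : ∀ j, Val k (α j)
  spl : ∀ j, Spl (b j) (α j)
  tr : ∀ j, ∑ i, α j (b j i) = 0
  le : ∀ x, θ x ≠ 0 → ∑ j, α j (x j) ≤ -1

noncomputable def QQ (w : ι → ℝ) (α : ∀ j, V j → ℝ) (b : Bs k V) : ℝ := ∑ j, w j * ∑ i, α j (b j i) ^ 2

theorem expand (θ : MultilinearMap k V k) (b : Bs k V) (x : ∀ j, V j) (hx : θ x ≠ 0) :
    ∃ i : ∀ j, Fin (finrank k (V j)), (∀ j, (b j).repr (x j) (i j) ≠ 0) ∧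
      θ (fun j => b j (i j)) ≠ 0 := by
  have e : x = fun j => ∑ i, (b j).repr (x j) i • b j i := funext fun j => ((b j).sum_repr _).symm
  rw [e, θ.map_sum] at hx
  obtain ⟨i, -, hi⟩ := exists_ne_zero_of_sum_ne_zero hx
  rw [θ.map_smul_univ, smul_eq_mul] at hi
  exact ⟨i, fun j => prod_ne_zero_iff.1 (left_ne_zero_of_mul hi) j (mem_univ j),
    right_ne_zero_of_mul hi⟩

theorem feas_ofB (θ : MultilinearMap k V k) (b : Bs k V) (l : ∀ j, Fin (finrank k (V j)) → ℝ)
    (h1 : ∀ j, ∑ i, l j i = 0)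
    (h2 : ∀ i : ∀ j, Fin (finrank k (V j)), θ (fun j => b j (i j)) ≠ 0 → ∑ j, l j (i j) ≤ -1) :
    Feas θ (fun j => ofB (b j) (l j)) b where
  val _ := ofB_val _ _
  spl _ := ofB_spl _ _
  tr j := by simp only [ofB_basis]; exact h1 j
  le x hx := by
    obtain ⟨i, hi, h⟩ := expand θ b x hx
    exact (sum_le_sum fun j _ => ofB_le _ _ _ _ (hi j)).trans (h2 i h)

theorem exists_min [∀ j, Finite (V j)] (θ : MultilinearMap k V k) (w : ι → ℝ) (hw : ∀ j, 0 < w j)
    (α0 : ∀ j, V j → ℝ) (b0 : Bs k V) (h0 : Feas θ α0 b0) :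
    ∃ α b, Feas θ α b ∧ ∀ α' b', Feas θ α' b' → QQ w α b ≤ QQ w α' b' := by
  have fin : Finite (Bs k V) := by
    have : ∀ j, Finite (Basis (Fin (finrank k (V j))) k (V j)) := fun j =>
      Finite.of_injective (fun b => (b : Fin (finrank k (V j)) → V j)) DFunLike.coe_injective
    infer_instance
  let q : (∀ j, Fin (finrank k (V j)) → ℝ) → ℝ := fun l => ∑ j, w j * ∑ i, l j i ^ 2
  have hq : Continuous q := by fun_prop
  let R := QQ w α0 b0
  let K : Bs k V → Set (∀ j, Fin (finrank k (V j)) → ℝ) := fun b =>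
    {l | (∀ j, ∑ i, l j i = 0) ∧ (∀ i : ∀ j, Fin (finrank k (V j)),
      θ (fun j => b j (i j)) ≠ 0 → ∑ j, l j (i j) ≤ -1) ∧ q l ≤ R}
  have hK : ∀ b, IsCompact (K b) := by
    intro b
    have c1 : IsCompact (Set.pi Set.univ fun j => Set.pi Set.univ
        fun _ : Fin (finrank k (V j)) => Set.Icc (-(R / w j + 1)) (R / w j + 1)) :=
      isCompact_univ_pi fun _ => isCompact_univ_pi fun _ => isCompact_Icc
    refine c1.of_isClosed_subset ?_ ?_
    · simp only [K, Set.ofPred_and, Set.ofPred_forall]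
      refine IsClosed.inter (isClosed_iInter fun j => isClosed_eq (by fun_prop) continuous_const)
        (IsClosed.inter (isClosed_iInter fun i => isClosed_iInter fun _ =>
          isClosed_le (by fun_prop) continuous_const) (isClosed_le hq continuous_const))
    · intro l hl j _ i _
      have a1 : l j i ^ 2 ≤ ∑ i, l j i ^ 2 :=
        single_le_sum (f := fun i => l j i ^ 2) (fun _ _ => sq_nonneg _) (mem_univ i)
      have a2 : w j * ∑ i, l j i ^ 2 ≤ q l :=
        single_le_sum (f := fun j => w j * ∑ i, l j i ^ 2)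
          (fun j _ => mul_nonneg (hw j).le (sum_nonneg fun _ _ => sq_nonneg _)) (mem_univ j)
      have a3 : l j i ^ 2 ≤ R / w j := by
        rw [le_div_iff₀ (hw j)]
        have := mul_le_mul_of_nonneg_left a1 (hw j).le
        linarith [hl.2.2]
      constructor <;> nlinarith [sq_nonneg (l j i - 1), sq_nonneg (l j i + 1)]
  have hS : IsCompact (⋃ b, q '' K b) := isCompact_iUnion fun b => (hK b).image hq
  have mem : ∀ α b, Feas θ α b → QQ w α b ≤ R → QQ w α b ∈ ⋃ b, q '' K b := fun α b h hR =>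
    Set.mem_iUnion.2 ⟨b, fun j i => α j (b j i), ⟨h.tr, fun i hi => h.le _ hi, hR⟩, rfl⟩
  obtain ⟨r, hr, hmin⟩ := hS.exists_isLeast ⟨_, mem α0 b0 h0 le_rfl⟩
  obtain ⟨b, l, hl, rfl⟩ := Set.mem_iUnion.1 hr
  have e : QQ w (fun j => ofB (b j) (l j)) b = q l := by simp only [QQ, ofB_basis, q]
  refine ⟨_, b, feas_ofB θ b l hl.1 hl.2.1, fun α' b' h' => ?_⟩
  rw [e]
  by_cases hc : QQ w α' b' ≤ R
  · exact hmin (mem α' b' h' hc)
  · exact hl.2.2.trans (not_le.1 hc).le

theorem min_unique [∀ j, Finite (V j)] (θ : MultilinearMap k V k) (w : ι → ℝ)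
    (hw : ∀ j, 0 < w j) {α β : ∀ j, V j → ℝ} {b c : Bs k V} (ha : Feas θ α b) (hb : Feas θ β c)
    (hmin : ∀ α' b', Feas θ α' b' → QQ w α b ≤ QQ w α' b') (he : QQ w β c = QQ w α b)
    (j : ι) (v : V j) (hv : v ≠ 0) : β j v = α j v := by
  choose d hd1 hd2 using fun j => two_flags (ha.val j) (hb.val j)
  have t1 : ∀ j, ∑ i, α j (d j i) = 0 := fun j =>
    (sum_split (ha.val j) (hd1 j) (ha.spl j) fun t => t).trans (ha.tr j)
  have t2 : ∀ j, ∑ i, β j (d j i) = 0 := fun j =>
    (sum_split (hb.val j) (hd2 j) (hb.spl j) fun t => t).trans (hb.tr j)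
  have q1 : QQ w α d = QQ w α b := sum_congr rfl fun j _ => by
    rw [sum_split (ha.val j) (hd1 j) (ha.spl j) fun t => t ^ 2]
  have q2 : QQ w β d = QQ w β c := sum_congr rfl fun j _ => by
    rw [sum_split (hb.val j) (hd2 j) (hb.spl j) fun t => t ^ 2]
  have hm := hmin _ d (feas_ofB θ d (fun j i => (α j (d j i) + β j (d j i)) / 2)
    (fun j => by rw [← sum_div, sum_add_distrib, t1, t2]; simp) fun i hi => by
      have a1 := ha.le _ hi
      have a2 := hb.le _ hi
      rw [← sum_div, sum_add_distrib]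
      linarith)
  have e : QQ w (fun j => ofB (d j) fun i => (α j (d j i) + β j (d j i)) / 2) d =
      (QQ w α d + QQ w β d) / 2 - (∑ j, w j * ∑ i, (α j (d j i) - β j (d j i)) ^ 2) / 4 := by
    simp only [QQ, ofB_basis]
    rw [← sum_add_distrib, sum_div, sum_div, ← sum_sub_distrib]
    refine sum_congr rfl fun j _ => ?_
    rw [← mul_add, mul_div_assoc, mul_div_assoc, ← mul_sub, ← sum_add_distrib, sum_div, sum_div,
      ← sum_sub_distrib]
    congr 1
    exact sum_congr rfl fun i _ => by ring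
  have nn : ∀ j, 0 ≤ w j * ∑ i, (α j (d j i) - β j (d j i)) ^ 2 := fun j =>
    mul_nonneg (hw j).le (sum_nonneg fun _ _ => sq_nonneg _)
  have z : ∑ j, w j * ∑ i, (α j (d j i) - β j (d j i)) ^ 2 = 0 :=
    le_antisymm (by rw [e, q1, q2, he] at hm; linarith) (sum_nonneg fun j _ => nn j)
  have z1 := (sum_eq_zero_iff_of_nonneg fun j _ => nn j).1 z j (mem_univ j)
  have z2 := (mul_eq_zero.1 z1).resolve_left (hw j).ne'
  have z3 : ∀ i, α j (d j i) = β j (d j i) := fun i => by
    have := (sum_eq_zero_iff_of_nonneg fun i _ => sq_nonneg _).1 z2 i (mem_univ i)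
    exact sub_eq_zero.1 (pow_eq_zero_iff two_ne_zero |>.1 this)
  exact le_antisymm (Spl.le (ha.val j) (hb.val j) (hd2 j) (hd1 j) (fun i => (z3 i).symm) v hv)
    (Spl.le (hb.val j) (ha.val j) (hd1 j) (hd2 j) z3 v hv)

theorem kempf [∀ j, Finite (V j)] (θ : MultilinearMap k V k) (w : ι → ℝ) (hw : ∀ j, 0 < w j)
    (α0 : ∀ j, V j → ℝ) (b0 : Bs k V) (h0 : Feas θ α0 b0) :
    ∃ α b, Feas θ α b ∧ QQ w α b ≤ QQ w α0 b0 ∧ ∀ g : ∀ j, V j ≃ₗ[k] V j,
      (∀ x, θ (fun j => g j (x j)) = θ x) → ∀ j v, v ≠ 0 → α j (g j v) = α j v := by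
  obtain ⟨α, b, h, hmin⟩ := exists_min θ w hw α0 b0 h0
  refine ⟨α, b, h, hmin _ _ h0, fun g hg j v hv => ?_⟩
  have h' : Feas θ (fun j v => α j (g j v)) fun j => (b j).map (g j).symm :=
    { val := fun j =>
        { smul := fun c v hc => by rw [map_smul, (h.val j).smul _ _ hc]
          add := fun v u hv hu h0 => by
            rw [map_add]
            exact (h.val j).add _ _ (by simpa using hv) (by simpa using hu)
              (by rw [← map_add]; simpa only [ne_eq, EmbeddingLike.map_eq_zero_iff] using h0) }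
      spl := fun j v i hi => by
        have := h.spl j (g j v) i (by simpa using hi)
        simpa using this
      tr := fun j => by simpa using h.tr j
      le := fun x hx => h.le _ (by rw [hg]; exact hx) }
  exact min_unique θ w hw h h' hmin (by simp [QQ]) j v hv

end Pool.Agent.P.MP_f1a348_lc.KT
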