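import Mathlib

/-!
Weighted flags as valuations on a finite vector space; two of them have a common split basis.
-/

namespace Pool.Agent.P.MP_f1a348_lc.KT

open Module Finset

variable {k V : Type} [Field k] [AddCommGroup V] [Module k V]

/-- a valuation on the non-zero vectors -/
structure Val (k : Type) {V : Type} [Field k] [AddCommGroup V] [Module k V] (α : V → ℝ) :
    Prop where
  smul : ∀ (c : k) (v : V), c ≠ 0 → α (c • v) = α v
  add : ∀ v w : V, v ≠ 0 → w ≠ 0 → v + w ≠ 0 → α v ≤ α (v + w) ∨ α w ≤ α (v + w)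

/-- the subspace of the vectors whose value lies in an upper set -/
def FP {α : V → ℝ} (h : Val k α) (P : ℝ → Prop) (hP : ∀ s t, s ≤ t → P s → P t) :
    Submodule k V where
  carrier := {v | v ≠ 0 → P (α v)}
  add_mem' {v w} hv hw h0 := by
    by_cases a : v = 0
    · subst a
      rw [zero_add] at h0 ⊢
      exact hw h0
    by_cases b : w = 0
    · subst b
      rw [add_zero] at h0 ⊢
      exact hv h0
    rcases h.add v w a b h0 with c | c
    · exact hP _ _ c (hv a)
    · exact hP _ _ c (hw b)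
  zero_mem' h0 := absurd rfl h0
  smul_mem' c v hv h0 := by
    have a : c ≠ 0 := fun a => h0 (by rw [a, zero_smul])
    have b : v ≠ 0 := fun b => h0 (by rw [b, smul_zero])
    rw [h.smul c v a]
    exact hv b

theorem mem_FP {α : V → ℝ} (h : Val k α) (P : ℝ → Prop) (hP : ∀ s t, s ≤ t → P s → P t)
    (v : V) : v ∈ FP h P hP ↔ (v ≠ 0 → P (α v)) := Iff.rfl

theorem Val.orth {α : V → ℝ} (h : Val k α) {v u : V} (hv : v ≠ 0) (hu : u ≠ 0)
    (h0 : v + u ≠ 0) (h1 : α (v + u) ≤ α v) : α (v + u) ≤ α u := by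
  have e : (v + u) + (-1 : k) • v = u := by simp
  have hn : (-1 : k) • v ≠ 0 := by simpa using hv
  rcases h.add (v + u) ((-1 : k) • v) h0 hn (by rw [e]; exact hu) with c | c
  · rwa [e] at c
  · rw [e, h.smul _ _ (by simp)] at c
    exact h1.trans c

theorem two_flags_aux [Finite V] {α β : V → ℝ} (hα : Val k α) (hβ : Val k β)
    (W : Submodule k V) : ∃ (n : ℕ) (b : Fin n → V), Submodule.span k (Set.range b) = W ∧
      ∀ a : Fin n → k, ∀ i, a i ≠ 0 → ∑ j, a j • b j ≠ 0 ∧ α (∑ j, a j • b j) ≤ α (b i) ∧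
        β (∑ j, a j • b j) ≤ β (b i) := by
  classical
  have : Module.Finite k V := Module.Finite.of_finite
  induction W using WellFoundedLT.induction with
  | ind W ih =>
  by_cases hW : W = ⊥
  · exact ⟨0, Fin.elim0, by simp [hW], fun a i => i.elim0⟩
  obtain ⟨v, ⟨hvW, hv0⟩, hmax⟩ := Set.exists_max_image {v : V | v ∈ W ∧ v ≠ 0}
    (fun v => α v - β v) (Set.toFinite _) (by
      obtain ⟨v, h1, h2⟩ := Submodule.exists_mem_ne_zero_of_ne_bot hW
      exact ⟨v, h1, h2⟩)
  have hvG : v ∉ FP hβ (fun t => β v < t) (fun _ _ a b => b.trans_le a) := fun h =>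
    lt_irrefl _ (h hv0)
  obtain ⟨f, -, hf⟩ : ∃ f : V →ₗ[k] k, True ∧ (f v = 1 ∧
      ∀ w ∈ FP hβ (fun t => β v < t) (fun _ _ a b => b.trans_le a), f w = 0) := by
    obtain ⟨f, h1, h2⟩ := LinearMap.exists_extend_of_notMem
      (0 : FP hβ (fun t => β v < t) (fun _ _ a b => b.trans_le a) →ₗ[k] k) hvG 1
    exact ⟨f, trivial, h2, fun w hw => by simpa using LinearMap.congr_fun h1 ⟨w, hw⟩⟩
  have hlt : W ⊓ LinearMap.ker f < W := by
    refine lt_of_le_of_ne inf_le_left fun h => ?_
    have : v ∈ W ⊓ LinearMap.ker f := by rw [h]; exact hvW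
    have h2 : f v = 0 := this.2
    rw [hf.1] at h2
    exact one_ne_zero h2
  obtain ⟨n, b, hsp, hb⟩ := ih _ hlt
  have key : ∀ u ∈ W ⊓ LinearMap.ker f, v + u ≠ 0 ∧ α (v + u) ≤ α v ∧ β (v + u) ≤ β v := by
    intro u hu
    have h1 : f (v + u) = 1 := by rw [map_add, hf.1, hu.2, add_zero]
    have h0 : v + u ≠ 0 := fun h => by rw [h, map_zero] at h1; exact zero_ne_one h1
    have h2 : β (v + u) ≤ β v := by
      by_contra hc
      have := hf.2 (v + u) fun _ => not_le.1 hc
      rw [h1] at this
      exact one_ne_zero this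
    have h3 := hmax (v + u) ⟨W.add_mem hvW hu.1, h0⟩
    exact ⟨h0, by linarith, h2⟩
  refine ⟨n + 1, Fin.cons v b, ?_, fun a i hi => ?_⟩
  · rw [Fin.range_cons, Submodule.span_insert, hsp]
    refine le_antisymm (sup_le ((Submodule.span_singleton_le_iff_mem _ _).2 hvW) inf_le_left) ?_
    intro w hw
    have e : w = f w • v + (w - f w • v) := by abel
    rw [e]
    refine Submodule.add_mem_sup (Submodule.smul_mem _ _ (Submodule.mem_span_singleton_self v))
      ⟨W.sub_mem hw (W.smul_mem _ hvW), ?_⟩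
    show f (w - f w • v) = 0
    rw [map_sub, map_smul, hf.1, smul_eq_mul, mul_one, sub_self]
  rw [Fin.sum_univ_succ]
  simp only [Fin.cons_zero, Fin.cons_succ]
  by_cases h0 : a 0 = 0
  · rw [h0, zero_smul, zero_add]
    cases i using Fin.cases with
    | zero => exact absurd h0 hi
    | succ i => exact hb (fun j => a j.succ) i hi
  have e : a 0 • v + ∑ j : Fin n, a j.succ • b j =
      a 0 • (v + ∑ j : Fin n, ((a 0)⁻¹ * a j.succ) • b j) := by
    rw [smul_add, Finset.smul_sum]
    congr 1
    refine Finset.sum_congr rfl fun j _ => ?_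
    rw [smul_smul, ← mul_assoc, mul_inv_cancel₀ h0, one_mul]
  have hu : ∑ j : Fin n, ((a 0)⁻¹ * a j.succ) • b j ∈ W ⊓ LinearMap.ker f := by
    rw [← hsp]
    exact Submodule.sum_mem _ fun j _ => Submodule.smul_mem _ _ (Submodule.subset_span ⟨j, rfl⟩)
  obtain ⟨k0, k1, k2⟩ := key _ hu
  rw [e, hα.smul _ _ h0, hβ.smul _ _ h0]
  refine ⟨smul_ne_zero h0 k0, ?_⟩
  cases i using Fin.cases with
  | zero => exact ⟨k1, k2⟩
  | succ i =>
    obtain ⟨m0, m1, m2⟩ := hb (fun j => (a 0)⁻¹ * a j.succ) i (mul_ne_zero (inv_ne_zero h0) hi)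
    exact ⟨(hα.orth hv0 m0 k0 k1).trans m1, (hβ.orth hv0 m0 k0 k2).trans m2⟩

/-- the basis `b` splits `α` -/
def Spl {ι : Type} (b : Basis ι k V) (α : V → ℝ) : Prop :=
  ∀ v i, b.repr v i ≠ 0 → α v ≤ α (b i)

theorem two_flags [Finite V] {α β : V → ℝ} (hα : Val k α) (hβ : Val k β) :
    ∃ b : Basis (Fin (finrank k V)) k V, Spl b α ∧ Spl b β := by
  obtain ⟨n, b, hsp, hb⟩ := two_flags_aux hα hβ ⊤
  have li : LinearIndependent k b := by
    rw [Fintype.linearIndependent_iff]
    intro a ha i
    by_contra hi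
    exact (hb a i hi).1 ha
  let B : Basis (Fin n) k V := Basis.mk li hsp.ge
  have hn : n = finrank k V := by rw [finrank_eq_card_basis B, Fintype.card_fin]
  subst hn
  have hB : ∀ i, B i = b i := fun i => by simp [B]
  have e : ∀ v, ∑ j, B.repr v j • b j = v := fun v => by
    conv_rhs => rw [← B.sum_repr v]
    exact Finset.sum_congr rfl fun j _ => by rw [hB]
  refine ⟨B, fun v i hi => ?_, fun v i hi => ?_⟩
  · have := (hb (B.repr v) i hi).2.1
    rwa [e, ← hB] at this
  · have := (hb (B.repr v) i hi).2.2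
    rwa [e, ← hB] at this

theorem mem_FP_iff {ι : Type} [Fintype ι] {α : V → ℝ} (h : Val k α) {b : Basis ι k V}
    (hb : Spl b α) (P : ℝ → Prop) (hP : ∀ s t, s ≤ t → P s → P t) (v : V) :
    v ∈ FP h P hP ↔ ∀ i, b.repr v i ≠ 0 → P (α (b i)) := by
  constructor
  · intro hv i hi
    have h0 : v ≠ 0 := fun h0 => hi (by simp [h0])
    exact hP _ _ (hb v i hi) (hv h0)
  · intro hv
    rw [← b.sum_repr v]
    refine Submodule.sum_mem _ fun i _ => ?_
    by_cases hi : b.repr v i = 0
    · rw [hi, zero_smul]; exact Submodule.zero_mem _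
    · exact Submodule.smul_mem _ _ fun _ => hv i hi

open Classical in
theorem card_FP {ι : Type} [Fintype ι] {α : V → ℝ} (h : Val k α) {b : Basis ι k V}
    (hb : Spl b α) (P : ℝ → Prop) (hP : ∀ s t, s ≤ t → P s → P t) :
    (univ.filter fun i => P (α (b i))).card = finrank k (FP h P hP) := by
  have e : FP h P hP = Submodule.span k (Set.range fun i : {i // P (α (b i))} => b i) := by
    ext v
    have e2 : (Set.range fun i : {i // P (α (b i))} => b i) = b '' {i | P (α (b i))} := by
      ext x; simp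
    rw [mem_FP_iff h hb, e2, b.mem_span_image]
    constructor
    · intro hv i hi
      exact hv i (by simpa using hi)
    · intro hv i hi
      exact hv (by simpa using hi)
  have li : LinearIndependent k fun i : {i // P (α (b i))} => b i :=
    b.linearIndependent.comp _ Subtype.val_injective
  rw [e, finrank_span_eq_card li, Fintype.card_subtype]

open Classical in
theorem card_eq_add {ι : Type} [Fintype ι] (l : ι → ℝ) (t : ℝ) :
    (univ.filter fun i => t ≤ l i).card =
      (univ.filter fun i => t = l i).card + (univ.filter fun i => t < l i).card := by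
  rw [← card_union_of_disjoint]
  · congr 1
    ext i
    simp [le_iff_eq_or_lt]
  · rw [disjoint_filter]
    intro i _ h1 h2
    exact h2.ne h1

theorem sum_split {ι : Type} [Fintype ι] {α : V → ℝ} (h : Val k α) {b c : Basis ι k V}
    (hb : Spl b α) (hc : Spl c α) (φ : ℝ → ℝ) : ∑ i, φ (α (b i)) = ∑ i, φ (α (c i)) := by
  classical
  have e : univ.val.map (fun i => α (b i)) = univ.val.map (fun i => α (c i)) := by
    refine Multiset.ext.2 fun t => ?_
    rw [Multiset.count_map, Multiset.count_map]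
    have a1 := card_eq_add (fun i => α (b i)) t
    have a2 := card_eq_add (fun i => α (c i)) t
    have b1 := card_FP h hb (fun s => t ≤ s) fun _ _ a b => b.trans a
    have b2 := card_FP h hc (fun s => t ≤ s) fun _ _ a b => b.trans a
    have c1 := card_FP h hb (fun s => t < s) fun _ _ a b => b.trans_le a
    have c2 := card_FP h hc (fun s => t < s) fun _ _ a b => b.trans_le a
    have : (univ.filter fun i => t = α (b i)).card = (univ.filter fun i => t = α (c i)).card := by
      have b3 : (univ.filter fun i => t ≤ α (b i)).card = (univ.filter fun i => t ≤ α (c i)).card := by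
        convert b1.trans b2.symm
      have c3 : (univ.filter fun i => t < α (b i)).card = (univ.filter fun i => t < α (c i)).card := by
        convert c1.trans c2.symm
      omega
    exact this
  have := congrArg (fun s : Multiset ℝ => (s.map φ).sum) e
  simp only [Multiset.map_map, Function.comp_def] at this
  exact this

/-- the valuation given by a basis and weights -/
noncomputable def ofB {ι : Type} (b : Basis ι k V) (l : ι → ℝ) (v : V) : ℝ :=
  if h : (b.repr v).support.Nonempty then (b.repr v).support.inf' h l else 0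

theorem ofB_le {ι : Type} (b : Basis ι k V) (l : ι → ℝ) (v : V) (i : ι) (hi : b.repr v i ≠ 0) :
    ofB b l v ≤ l i := by
  have hm : i ∈ (b.repr v).support := Finsupp.mem_support_iff.2 hi
  rw [ofB, dif_pos ⟨i, hm⟩]
  exact inf'_le _ hm

theorem ofB_ex {ι : Type} (b : Basis ι k V) (l : ι → ℝ) (v : V) (hv : v ≠ 0) :
    ∃ i, b.repr v i ≠ 0 ∧ ofB b l v = l i := by
  have h : (b.repr v).support.Nonempty := by
    rw [Finsupp.support_nonempty_iff]
    simpa using hv
  obtain ⟨i, hi, e⟩ := exists_mem_eq_inf' h l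
  exact ⟨i, Finsupp.mem_support_iff.1 hi, by rw [ofB, dif_pos h, e]⟩

theorem ofB_basis {ι : Type} (b : Basis ι k V) (l : ι → ℝ) (i : ι) : ofB b l (b i) = l i := by
  classical
  obtain ⟨j, hj, e⟩ := ofB_ex b l (b i) (b.ne_zero i)
  rw [b.repr_self, Finsupp.single_apply] at hj
  have : i = j := by by_contra hc; exact hj (if_neg hc)
  rw [e, this]

theorem ofB_spl {ι : Type} (b : Basis ι k V) (l : ι → ℝ) : Spl b (ofB b l) := fun v i hi => by
  rw [ofB_basis]; exact ofB_le b l v i hi

theorem ofB_val {ι : Type} (b : Basis ι k V) (l : ι → ℝ) : Val k (ofB b l) where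
  smul c v hc := by
    by_cases hv : v = 0
    · rw [hv, smul_zero]
    obtain ⟨i, hi, e⟩ := ofB_ex b l v hv
    obtain ⟨j, hj, e'⟩ := ofB_ex b l (c • v) (smul_ne_zero hc hv)
    refine le_antisymm ?_ ?_
    · rw [e]; exact ofB_le b l _ i (by simpa using ⟨hc, hi⟩)
    · rw [e']; exact ofB_le b l _ j fun h => hj (by simp [h])
  add v w _ _ h0 := by
    obtain ⟨i, hi, e⟩ := ofB_ex b l (v + w) h0
    rw [e]
    by_cases h1 : b.repr v i = 0
    · exact Or.inr (ofB_le b l w i fun h => hi (by simp [h, h1]))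
    · exact Or.inl (ofB_le b l v i h1)

theorem Spl.le {ι : Type} [Fintype ι] {α β : V → ℝ} (hβ : Val k β) {b : Basis ι k V}
    (hα : Val k α) (ha : Spl b α) (hb : Spl b β) (h : ∀ i, α (b i) = β (b i)) (v : V)
    (hv : v ≠ 0) : α v ≤ β v := by
  have : v ∈ FP hα (fun t => α v ≤ t) fun _ _ a b => b.trans a := fun _ => le_rfl
  rw [mem_FP_iff hα ha] at this
  have h2 : v ∈ FP hβ (fun t => α v ≤ t) fun _ _ a b => b.trans a := by
    rw [mem_FP_iff hβ hb]
    intro i hi
    rw [← h]; exact this i hi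
  exact h2 hv

end Pool.Agent.P.MP_f1a348_lc.KT
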